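import Mathlib

/-!
# The zero-one law for all K3 surfaces: jobs of pure linear algebra

All indices are finite types, all matrices are complex. `bil Q u v` is the bilinear form of `Q`.
-/

set_option autoImplicit false

namespace Pool.Agent.V5helper90.ZL

open Matrix

/-- The bilinear form with matrix `Q`. -/
def bil {ι : Type} [Fintype ι] (Q : Matrix ι ι ℂ) (u v : ι → ℂ) : ℂ := u ⬝ᵥ (Q *ᵥ v)

/-- The dilation `w ↦ w + (t⁻¹ - 1) B(v, w) u + (t - 1) B(u, w) v`. -/
noncomputable def dil {ι : Type} [Fintype ι] [DecidableEq ι] (Q : Matrix ι ι ℂ) (u v : ι → ℂ)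
    (t : ℂ) : Matrix ι ι ℂ :=
  1 + (t⁻¹ - 1) • vecMulVec u (Q *ᵥ v) + (t - 1) • vecMulVec v (Q *ᵥ u)

/-- JOB SO. (The special orthogonal group of a nondegenerate subspace is generated by rotations.)

Here `P` is the orthogonal projector onto a subspace `M = im P` (`P` is idempotent and self-adjoint
with respect to the symmetric nondegenerate form `Q`), `𝒢` is a group of isometries which contains
for any two vectors `v, v'` of `M` of the same length `q ≠ 0` with `B(v, v')² ≠ q²` a rotation which maps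
`v'` to `v` and fixes the vectors orthogonal to `v` and `v'`. Then `𝒢` contains all isometries of
determinant one which fix `ker P = M^⊥`.

Proof. This is the proof of `KD.rot2` and `KD.So_of` in
`Pool/Agent/V5helper89/KZ/Group2.lean` (copy and adapt): there the orthogonal basis of `M` consists of basis
vectors `Pi.single j 1`; here take an orthonormal basis `b_1, …, b_s` of `M`
(`LinearMap.BilinForm.exists_orthogonal_basis` for the restriction of the form to `M`, which is nondegenerate
because `P` is self-adjoint; divide by square roots of `B(b_j, b_j) ≠ 0`). Induction on the number of the `j`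
with `j ∉ S`, where `g b_j = b_j` for `j ∈ S`. If one `j` is left then `g b_j = ± b_j` and the determinant
shows `g = 1`. If at least two are left, let `v = b_j`, `v' = g b_j` (in `M`, orthogonal to the `b_i`, `i ∈ S`),
`w = b_j'`; as in `rot2` there is `R ∈ 𝒢` of determinant one with `R v' = v`, fixing all vectors orthogonal to
`v, v', w` (one rotation, or two rotations via `w` or via `(3 v + 4 w) / 5`); apply induction to `R g` and
`insert j S`. -/
def S_SO : Prop :=
  ∀ (ι : Type) [Fintype ι] [DecidableEq ι] (Q P : Matrix ι ι ℂ) (𝒢 : Submonoid (Matrix ι ι ℂ)),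
    Qᵀ = Q → IsUnit Q.det → P * P = P → Pᵀ * Q = Q * P →
    (∀ g ∈ 𝒢, gᵀ * Q * g = Q) →
    (∀ g ∈ 𝒢, ∃ g' ∈ 𝒢, g * g' = 1) →
    (∀ v v' : ι → ℂ, P *ᵥ v = v → P *ᵥ v' = v' → bil Q v v = bil Q v' v' → bil Q v v ≠ 0 →
      bil Q v v' ^ 2 ≠ bil Q v v ^ 2 → ∃ R ∈ 𝒢, R.det = 1 ∧ R *ᵥ v' = v ∧
        ∀ w, bil Q v w = 0 → bil Q v' w = 0 → R *ᵥ w = w) →
    ∀ g : Matrix ι ι ℂ, gᵀ * Q * g = Q → g.det = 1 → (∀ w, P *ᵥ w = 0 → g *ᵥ w = w) → g ∈ 𝒢

/-- JOB GL. (The general linear group of an isotropic subspace is generated by dilations.)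

Here `M = im P` and `M' = im P'` are isotropic subspaces in duality (`B(P u, v) = B(u, P' v)`), and `𝒢` is a
monoid which contains all dilations `dil Q u v t`, `u ∈ M`, `v ∈ M'`, `B(u, v) = 1`, `t ≠ 0`: on `M` this is
`w ↦ w + (t⁻¹ - 1) B(v, w) u`, on `M'` it is `w ↦ w + (t - 1) B(u, w) v`, and it fixes the vectors orthogonal
to `u` and `v`. Then `𝒢` contains all isometries which commute with `P` and `P'` and fix `ker P ∩ ker P'`.

Proof. Let `b_1, …, b_s` be a basis of `M` and `b'_1, …, b'_s` the dual basis of `M'`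
(`B(b_i, b'_j) = δ_ij`). For an invertible `s × s` matrix `A` let `γ(A)` be the isometry which acts by `A` on `M`, by
the transposed inverse on `M'`, and fixes `ker P ∩ ker P'`; for example
`γ(A) = (1 - P - P') + ∑ A_ij b_i (Q b'_j)ᵀ + ∑ (A⁻¹)_ji b'_i (Q b_j)ᵀ`. It is multiplicative, and `g = γ(A)` for the
matrix `A` of `g` on `M`. By `Matrix.diagonal_transvection_induction_of_det_ne_zero` it is
sufficient to show `γ(A) ∈ 𝒢` for invertible diagonal matrices (products of the dilations with `u = b_j`,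
`v = b'_j`) and for transvections `1 + c E_ij`: this is a product `D₁ D₂` of two dilations with `u = b_i`,
`v = b'_i + c / (t⁻¹ - 1) b'_j` and parameter `t`, and `u = b_i`, `v = b'_i` and parameter `t⁻¹` (say `t = 1/2`):
on `M` one has `D₁ D₂ x = x + (s - 1) (λ(x) - λ'(x)) u` with `s = t⁻¹`, `λ = B(b'_i + c / (s - 1) b'_j, ·)`,
`λ' = B(b'_i, ·)`. -/
def S_GL : Prop :=
  ∀ (ι : Type) [Fintype ι] [DecidableEq ι] (Q P P' : Matrix ι ι ℂ)
    (𝒢 : Submonoid (Matrix ι ι ℂ)),
    Qᵀ = Q → IsUnit Q.det → P * P = P → P' * P' = P' → P * P' = 0 → P' * P = 0 →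
    Pᵀ * Q = Q * P' →
    (∀ u v : ι → ℂ, P *ᵥ u = u → P' *ᵥ v = v → bil Q u v = 1 → ∀ t : ℂ, t ≠ 0 →
      dil Q u v t ∈ 𝒢) →
    ∀ g : Matrix ι ι ℂ, gᵀ * Q * g = Q → P * g = g * P → P' * g = g * P' →
      (∀ w, P *ᵥ w = 0 → P' *ᵥ w = 0 → g *ᵥ w = w) → g ∈ 𝒢

/-- JOB DT. (The determinant of a projector.)

For an idempotent matrix `P` of rank `s` there is a complex array `D` on words of length `s` (the
decomposable alternating tensor of a basis of `im P`), not zero, such that every matrix `g` which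
commutes with `P` multiplies it by the determinant of `1 - P + g P` (the determinant of `g` on `im P`).
`∏ x, g (i x) (w x)` are the entries of the tensor power of `g`.

Proof. Let `b_1, …, b_s` be a basis of `im P`, `D(i) = det (a, c ↦ b_c (i a))`. By multilinearity of the
determinant in the rows (`MultilinearMap.map_sum`, see `kp_dta` in
`Pool/Agent/V5helper89/KZ/Det.lean`) `∑ w, (∏ x, g (i x) (w x)) D(w) = det (a, c ↦ (g b_c) (i a))`, and
`g b_c = ∑ A_dc b_d` gives `det (b_c (i a)) det A`. Finally `det A = det (1 - P + g P)`: complete to a basis of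
the space by a basis of `ker P`; in this basis `1 - P + g P` is block diagonal with blocks `A` and `1`
(`LinearMap.det_toMatrix`, `Matrix.det_fromBlocks_zero₁₂`). `D ≠ 0`: a linearly independent family of vectors has a
nonzero minor; or: choose a left inverse of the injective map `ℂ^s → ℂ^ι`, `L * B = 1`, and expand
`1 = det (L * B) = ∑ over i of (∏ a, L a (i a)) D(i)` by multilinearity again. The support: if `im P` consists
of vectors which vanish outside `τ`, then `D(i) ≠ 0` implies `τ (i a)` for all `a` (otherwise row `a` is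
zero). -/
def S_DT : Prop :=
  ∀ (ι : Type) [Fintype ι] [DecidableEq ι] (P : Matrix ι ι ℂ) (τ : ι → Prop),
    P * P = P → (∀ i, ¬ τ i → ∀ j, P i j = 0) →
    ∃ (s : ℕ) (D : (Fin s → ι) → ℂ), s ≤ Nat.card {i // τ i} ∧ D ≠ 0 ∧
      (∀ i, D i ≠ 0 → ∀ a, τ (i a)) ∧
      ∀ g : Matrix ι ι ℂ, P * g = g * P → ∀ i : Fin s → ι,
        ∑ w : Fin s → ι, (∏ x, g (i x) (w x)) * D w = (1 - P + g * P).det * D i

end Pool.Agent.V5helper90.ZL
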