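import Pool.Agent.V5helper90.ZL.Stm

/-!
# The zero-one law for all K3 surfaces: jobs for the sharp form
-/

set_option autoImplicit false

namespace Pool.Agent.V5helper90.ZL

open Matrix Pool.Agent.N996.BP Pool.Agent.N996.FP
open Pool.Agent.V5helper89.KZ.KD (B U Wm)

/-- The reflection in the vector `b` (for `B(b, b) = 1`). -/
noncomputable def refl {ι : Type} [Fintype ι] [DecidableEq ι] (Q : Matrix ι ι ℂ) (b : ι → ℂ) :
    Matrix ι ι ℂ := 1 - (2 : ℂ) • vecMulVec b (Q *ᵥ b)

/-- JOB REFL (pure linear algebra). Let `b_1, …, b_s` be orthonormal vectors, such that the linear forms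
`B(b_j, ·)` vanish on the basis vectors outside `τ`. Let `h` be an array on words with letters in `ι`, which
is supported on words with fewer than `s` letters in `τ`, and is fixed by all products of two of the
reflections in `b_1, …, b_s`. Then it is fixed by these reflections.

Proof. Let `p_j = vecMulVec (b j) (Q *ᵥ b j)` (so `p_i p_j = δ_ij p_i`, the reflection is `ρ_j = 1 - 2 p_j`, `ρ_j² = 1`),
and `p_0 = 1 - ∑ p_j`. All `kp κ (ρ_j) h` are equal (`kp_mul`); let `y = h - kp κ (ρ_j) h`, so `kp κ (ρ_j) y = - y` for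
all `j`. Expanding `1 = kp κ 1 = kpf (fun _ => p_0 + ∑ p_j)` gives `y = ∑ over φ : κ → Option (Fin s) of
kpf (fun k => p_(φ k)) y` (`kpf` is in `Pool/Agent/N996/FP/Dk.lean`: `kpf g i j = ∏ k, g k (i k) (j k)`, `kpf_mul`,
`kpf_const`; use `Finset.prod_univ_sum` or `Fintype.piFinset`). Every term is zero: by `kpf_mul`,
`kpf p_φ * kp κ (ρ_j) = (-1)^(#φ⁻¹(j)) kpf p_φ`, because `p_j ρ_j = - p_j`, `p_i ρ_j = p_i` for `i ≠ j`
(also for `i = 0`). If `j` is not a value of `φ` this gives `kpf p_φ y = - kpf p_φ y`. If all `j` are values of `φ` then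
`kpf p_φ h = 0`, because `p_j v w = b_j v * (Q b_j) w` is zero for `w` outside `τ`, and there are at least `s` places
`k` with `φ k ≠ none`; and `kpf p_φ (kp κ (ρ_j) h) = ± kpf p_φ h = 0`. -/
def S_REFL : Prop :=
  ∀ (ι κ : Type) [Fintype ι] [DecidableEq ι] [Fintype κ] [DecidableEq κ] (Q : Matrix ι ι ℂ)
    (τ : ι → Prop) (s : ℕ) (b : Fin s → ι → ℂ) (h : (κ → ι) → ℂ), Qᵀ = Q →
    (∀ i j, bil Q (b i) (b j) = if i = j then 1 else 0) →
    (∀ j i, ¬ τ i → (Q *ᵥ b j) i = 0) →
    (∀ w, h w ≠ 0 → Nat.card {k // τ (w k)} < s) →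
    (∀ i j, kp κ (refl Q (b i) * refl Q (b j)) *ᵥ h = h) →
    ∀ j, kp κ (refl Q (b j)) *ᵥ h = h

/-- JOB MISS (uses `S_GRP`, `S_REFL`). Hodge classes on words with few letters in `τ` are fixed by all matrices
which fix the algebraic basis vectors and the Hodge classes in degree two.

Proof. For `c` with `bar c = c` choose an orthonormal basis `b_1, …, b_s`, `s = (P c).rank`, of the image of `P c`
(the form is nondegenerate there because of `adj`; see the job SO, `Pool/Agent/V5helper29/ZL/SO.lean`). The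
reflections `ρ_j = refl Q (b j)` are isometries, fix the algebraic basis vectors, commute with all
`P c'` (`P c' b_j = 0` and `P c'ᵀ Q b_j = Q P (bar c') b_j = 0` for `c' ≠ c`), have
`det (1 - P c' + ρ_j P c') = 1` for `c' ≠ c` (then `ρ_j P c' = P c'`) and `= -1` for `c' = c` (it is `ρ_j`; the
determinant of `1 - 2 u vᵀ` is `1 - 2 vᵀ u = -1`). In `S_GRP` the hypothesis `Fixes H g (Unit ⊕ Unit)` is used only to
know that `g` is an isometry and commutes with the `P c`; so the job GRP should be proved in this more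
general form (ask helper29), `S_GRP'` below. So `ρ_i ρ_j ∈ So H` and `S_REFL` shows that `ρ_1` fixes `h`. For
given `g` let `g' = g ∏ ρ_c` be the product over the `c` with `bar c = c` and `det (1 - P c + g P c) = - 1` of the
reflections chosen in the images of `P c` (the determinant of `1 - P c + g P c` is `± 1` since it is an isometry;
it is multiplicative in `g`); then `g' ∈ So H` by `S_GRP'`, so `g'` fixes `h`, and so does `g`. -/
def S_MISS : Prop :=
  ∀ (ι κ : Type) [Fintype ι] [DecidableEq ι] [Fintype κ] [DecidableEq κ] (H : HData ι)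
    (τ : ι → Prop) (C : Type) [Fintype C]
    [DecidableEq C] (P : C → Matrix ι ι ℂ) (bar : C → C), Blocks H τ C P bar →
    ∀ h ∈ BB H κ, (∀ c, bar c = c → ∀ w, h w ≠ 0 → Nat.card {k // τ (w k)} < (P c).rank) →
    ∀ g : Matrix ι ι ℂ, (∀ i, ¬ τ i → g *ᵥ Pi.single i 1 = Pi.single i 1) →
      Fixes H g (Unit ⊕ Unit) → kp κ g *ᵥ ca h = ca h

/-- The more general form of `S_GRP` (same proof). -/
def S_GRP' : Prop :=
  ∀ (ι : Type) [Fintype ι] [DecidableEq ι] (H : HData ι) (τ : ι → Prop) (C : Type) [Fintype C]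
    [DecidableEq C] (P : C → Matrix ι ι ℂ) (bar : C → C), Blocks H τ C P bar →
    ∀ g : Matrix ι ι ℂ, (∀ i, ¬ τ i → g *ᵥ Pi.single i 1 = Pi.single i 1) →
      gᵀ * cQ H.Qr * g = cQ H.Qr → (∀ c, P c * g = g * P c) →
      (∀ c, bar c = c → (1 - P c + g * P c).det = 1) → g ∈ So H

/-- JOB DAX. The same as `S_DA`, with the exact value `(P c).rank` of the number `s`. (In the job DT the
number `s` is the dimension of the image of `P`.) -/
def S_DAX : Prop :=
  ∀ (ι : Type) [Fintype ι] [DecidableEq ι] (H : HData ι) (τ : ι → Prop) (C : Type) [Fintype C]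
    [DecidableEq C] (P : C → Matrix ι ι ℂ) (bar : C → C), Blocks H τ C P bar →
    (∀ g ∈ So H, ∀ i, ¬ τ i → g *ᵥ Pi.single i 1 = Pi.single i 1) →
    ∀ c, bar c = c →
      ∀ (μ : Type) [Fintype μ] [DecidableEq μ] (v : μ → ι), (∀ x, ¬ τ (v x)) →
        ∃ A : (Fin (P c).rank ⊕ μ → ι) → ℂ, A ≠ 0 ∧
          (∀ i, A i ≠ 0 → (∀ a, τ (i (Sum.inl a))) ∧ ∀ x, i (Sum.inr x) = v x) ∧
          A ∈ Submodule.span ℂ
            (ca '' (BB H (Fin (P c).rank ⊕ μ) : Set ((Fin (P c).rank ⊕ μ → ι) → ℚ))) ∧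
          ∀ g : Matrix ι ι ℂ, (∀ i, ¬ τ i → g *ᵥ Pi.single i 1 = Pi.single i 1) →
            P c * g = g * P c → kp (Fin (P c).rank ⊕ μ) g *ᵥ A = (1 - P c + g * P c).det • A

end Pool.Agent.V5helper90.ZL
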