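import Pool.Agent.V5helper89.KZ.Group

/-!
# Hodge structures of K3 type with arbitrary endomorphisms: basic lemmas

This file is adapted from `Pool/Agent/V5helper89/KZ/Coord.lean` (helper89), without the hypothesis that
the endomorphisms are scalar.
-/

set_option autoImplicit false
set_option linter.unusedSectionVars false

namespace Pool.Agent.V5helper90.ZL

open Matrix Pool.Agent.N996.BP Pool.Agent.N996.FP ComplexConjugate ComplexOrder
open Pool.Agent.V5helper89.KZ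
open Pool.Agent.V5helper89.KZ.KD (B B_apply QQ QQ' U mem_U B_single exists_proj L mem_L Wm Wm_mulVec)

variable {ι : Type} [Fintype ι] [DecidableEq ι]

/-- A polarised Hodge structure in coordinates of K3 type; `τ` are the indices of the basis
vectors of the transcendental part `T`. -/
structure KD0 (H : HData ι) (τ : ι → Prop) (e : ι → ℂ) : Prop where
  sym : ∀ i j, H.Qr i j = H.Qr j i
  blk : ∀ i j, τ j → i ≠ j → H.Qr i j = 0
  inv : ∀ i, ¬ τ i → ∀ t : ℂ, t ≠ 0 → H.l t *ᵥ Pi.single i 1 = Pi.single i 1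
  rat : ∀ a : ι → ℚ, (∀ t : ℂ, t ≠ 0 → (H.l t *ᵥ fun i => (a i : ℂ)) = fun i => (a i : ℂ)) →
    ∀ j, τ j → a j = 0
  two : 2 ≤ H.w
  wt : ∀ k ∈ Finset.Icc (-H.w : ℤ) H.w, k ≠ 2 → k ≠ 0 → k ≠ -2 → H.π k = 0
  ne : e ≠ 0
  fx : H.π 2 *ᵥ e = e
  rk : ∀ v, ∃ c : ℂ, H.π 2 *ᵥ v = c • e

namespace KD0

variable {H : HData ι} {τ : ι → Prop} {e : ι → ℂ}

lemma cQ_tr (D : KD0 H τ e) : (cQ H.Qr)ᵀ = cQ H.Qr := by
  ext i j
  rw [Matrix.transpose_apply, cQ, Matrix.map_apply, Matrix.map_apply, D.sym]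

lemma B_symm (D : KD0 H τ e) (u v : ι → ℂ) : B H u v = B H v u := by
  rw [B_apply, B_apply, Matrix.dotProduct_mulVec, ← Matrix.mulVec_transpose, D.cQ_tr,
    dotProduct_comm]

lemma B_nondeg (D : KD0 H τ e) {v : ι → ℂ} (h : ∀ u, B H u v = 0) : v = 0 := by
  have h1 : cQ H.Qr *ᵥ v = 0 := by
    funext i
    have := h (Pi.single i 1)
    rw [B_apply, single_one_dotProduct] at this
    exact this
  have h2 : cQ H.Qir *ᵥ (cQ H.Qr *ᵥ v) = v := by rw [Matrix.mulVec_mulVec, QQ', Matrix.one_mulVec]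
  rw [← h2, h1, Matrix.mulVec_zero]

/-- A vector orthogonal to the algebraic basis vectors belongs to `T`. -/
lemma mem_U_of (D : KD0 H τ e) {w : ι → ℂ} (h : ∀ i, ¬ τ i → B H (Pi.single i 1) w = 0) :
    w ∈ U τ := by
  classical
  let w₀ : ι → ℂ := fun i => if τ i then 0 else w i
  have h0 : w₀ = 0 := by
    apply D.B_nondeg
    intro u
    rw [B_apply]
    have h1 : cQ H.Qr *ᵥ w₀ = 0 := by
      funext j
      rw [Matrix.mulVec, dotProduct, Pi.zero_apply]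
      by_cases hj : τ j
      · refine Finset.sum_eq_zero fun i _ => ?_
        by_cases hi : τ i
        · simp only [w₀, if_pos hi, mul_zero]
        · have h2 : i ≠ j := fun h => hi (h ▸ hj)
          rw [cQ, Matrix.map_apply, D.sym, D.blk i j hj h2, Rat.cast_zero, zero_mul]
      · have h2 := h j hj
        rw [B_single, Matrix.mulVec, dotProduct] at h2
        rw [← h2]
        refine Finset.sum_congr rfl fun i _ => ?_
        by_cases hi : τ i
        · have h3 : j ≠ i := fun h => hj (h ▸ hi)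
          rw [cQ, Matrix.map_apply, D.blk j i hi h3, Rat.cast_zero, zero_mul, zero_mul]
        · simp only [w₀, if_neg hi]
    rw [h1, dotProduct_zero]
  intro i hi
  have := congrFun h0 i
  simp only [w₀, if_neg hi] at this
  exact this

lemma B_U (D : KD0 H τ e) {w : ι → ℂ} (hw : w ∈ U τ) {i : ι} (hi : ¬ τ i) :
    B H (Pi.single i 1) w = 0 := by
  rw [B_single, Matrix.mulVec, dotProduct]
  refine Finset.sum_eq_zero fun j _ => ?_
  by_cases hj : τ j
  · have h3 : i ≠ j := fun h => hi (h ▸ hj)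
    rw [cQ, Matrix.map_apply, D.blk i j hj h3, Rat.cast_zero, zero_mul]
  · rw [hw j hj, mul_zero]

/-- The Hodge classes of degree one. -/
lemma single_BB (D : KD0 H τ e) {i : ι} (hi : ¬ τ i) :
    (un (Pi.single i (1 : ℚ)) : (Unit → ι) → ℚ) ∈ BB H Unit := by
  intro t ht
  have h1 : ca (un (Pi.single i (1 : ℚ)) : (Unit → ι) → ℚ) = un (Pi.single i (1 : ℂ)) := by
    funext f
    rw [ca, un, un, Pi.single_apply, Pi.single_apply]
    split_ifs <;> simp
  rw [h1, kp_un, D.inv i hi t ht]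

lemma ho_single (D : KD0 H τ e) {z : Matrix ι ι ℂ} (hz : z ∈ ho H) {i : ι} (hi : ¬ τ i) :
    z *ᵥ Pi.single i 1 = 0 := by
  have h1 := hz Unit _ (D.single_BB hi)
  have h2 : ca (un (Pi.single i (1 : ℚ)) : (Unit → ι) → ℚ) = un (Pi.single i (1 : ℂ)) := by
    funext f
    rw [ca, un, un, Pi.single_apply, Pi.single_apply]
    split_ifs <;> simp
  rw [h2, dk_un] at h1
  apply un_inj
  rw [h1]
  rfl

lemma ho_B (_ : KD0 H τ e) {z : Matrix ι ι ℂ} (hz : z ∈ ho H) (u v : ι → ℂ) :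
    B H (z *ᵥ u) v + B H u (z *ᵥ v) = 0 := by
  have h1 := ho_skew hz
  have h2 : zᵀ * cQ H.Qr + cQ H.Qr * z = 0 := by
    have h3 : cQ H.Qr * (z * cQ H.Qir + cQ H.Qir * zᵀ) * cQ H.Qr = 0 := by
      rw [h1, Matrix.mul_zero, Matrix.zero_mul]
    rw [Matrix.mul_add, Matrix.add_mul] at h3
    have e1 : cQ H.Qr * (z * cQ H.Qir) * cQ H.Qr = cQ H.Qr * z := by
      rw [← Matrix.mul_assoc, Matrix.mul_assoc, QQ', Matrix.mul_one]
    have e2 : cQ H.Qr * (cQ H.Qir * zᵀ) * cQ H.Qr = zᵀ * cQ H.Qr := by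
      rw [← Matrix.mul_assoc, QQ, Matrix.one_mul]
    rw [e1, e2, add_comm] at h3
    exact h3
  have e1 : B H (z *ᵥ u) v = u ⬝ᵥ ((zᵀ * cQ H.Qr) *ᵥ v) := by
    rw [B_apply, ← Matrix.mulVec_mulVec, Matrix.dotProduct_mulVec u, ← Matrix.mulVec_transpose,
      Matrix.transpose_transpose]
  have e2 : B H u (z *ᵥ v) = u ⬝ᵥ ((cQ H.Qr * z) *ᵥ v) := by
    rw [B_apply, Matrix.mulVec_mulVec]
  rw [e1, e2, ← dotProduct_add, ← Matrix.add_mulVec, h2, Matrix.zero_mulVec, dotProduct_zero]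

lemma ho_stab (D : KD0 H τ e) {z : Matrix ι ι ℂ} (hz : z ∈ ho H) (u : ι → ℂ) : z *ᵥ u ∈ U τ := by
  refine D.mem_U_of fun i hi => ?_
  have h1 := D.ho_B hz (Pi.single i 1) u
  rw [D.ho_single hz hi, map_zero, LinearMap.zero_apply, zero_add] at h1
  exact h1

/-! ### The element of rank two -/

lemma w2 (D : KD0 H τ e) : (2 : ℤ) ∈ Finset.Icc (-H.w : ℤ) H.w := by
  have := D.two
  rw [Finset.mem_Icc]; omega

lemma wm2 (D : KD0 H τ e) : (-2 : ℤ) ∈ Finset.Icc (-H.w : ℤ) H.w := by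
  have := D.two
  rw [Finset.mem_Icc]; omega

lemma w0 (_ : KD0 H τ e) : (0 : ℤ) ∈ Finset.Icc (-H.w : ℤ) H.w := by
  rw [Finset.mem_Icc]; omega

lemma B_π (_ : KD0 H τ e) {k : ℤ} (hk : k ∈ Finset.Icc (-H.w : ℤ) H.w) (u v : ι → ℂ) :
    B H (H.π k *ᵥ u) v = B H u (H.π (-k) *ᵥ v) := by
  rw [B_apply, B_apply, Matrix.mulVec_mulVec, ← H.hπQ k hk, ← Matrix.mulVec_mulVec,
    Matrix.dotProduct_mulVec u, ← Matrix.mulVec_transpose, Matrix.transpose_transpose]

lemma π_single (D : KD0 H τ e) {k : ℤ} (hk : k ∈ Finset.Icc (-H.w : ℤ) H.w) (hk0 : k ≠ 0) {i : ι}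
    (hi : ¬ τ i) : H.π k *ᵥ Pi.single i 1 = 0 := by
  have h1 := D.inv i hi 2 two_ne_zero
  have h2 : H.π k *ᵥ (H.l 2 *ᵥ Pi.single i 1) = (2 : ℂ) ^ k • (H.π k *ᵥ Pi.single i 1) := by
    rw [Matrix.mulVec_mulVec, H.l_apply, Finset.mul_sum, Finset.sum_eq_single k]
    · rw [Matrix.mul_smul, H.hmul k hk k hk, if_pos rfl, Matrix.smul_mulVec]
    · intro b hb hne
      rw [Matrix.mul_smul, H.hmul k hk b hb, if_neg (Ne.symm hne), smul_zero]
    · intro h; exact absurd hk h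
  rw [h1] at h2
  have h3 : (1 - (2 : ℂ) ^ k) • (H.π k *ᵥ Pi.single i (1 : ℂ)) = 0 := by
    rw [sub_smul, one_smul, ← h2, sub_self]
  rcases smul_eq_zero.1 h3 with h4 | h4
  · exfalso
    have h5 : ((2 : ℂ) ^ k) = 1 := (sub_eq_zero.1 h4).symm
    have h6 : ‖(2 : ℂ) ^ k‖ = 1 := by rw [h5, norm_one]
    rw [norm_zpow, Complex.norm_ofNat] at h6
    have h7 : k = 0 := by
      by_contra hne
      rcases lt_or_gt_of_ne hne with hlt | hgt
      · have := zpow_lt_one_of_neg₀ (a := (2 : ℝ)) (by norm_num) hlt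
        linarith
      · have := one_lt_zpow₀ (a := (2 : ℝ)) (by norm_num) hgt
        linarith
    exact hk0 h7
  · exact h4

/-- The conjugate of the form. -/
lemma exists_f (D : KD0 H τ e) : ∃ f : ι → ℂ, H.π (-2) *ᵥ f = f ∧ B H e f = 1 := by
  have h1 : ∃ v, B H e v ≠ 0 := by
    by_contra hcon
    push Not at hcon
    exact D.ne (D.B_nondeg fun u => by rw [D.B_symm]; exact hcon u)
  obtain ⟨v, hv⟩ := h1
  have h2 : B H e v = B H e (H.π (-2) *ᵥ v) := by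
    conv_lhs => rw [← D.fx]
    rw [D.B_π D.w2]
  have h3 := H.hmul (-2) D.wm2 (-2) D.wm2
  rw [if_pos rfl] at h3
  refine ⟨(B H e v)⁻¹ • (H.π (-2) *ᵥ v), ?_, ?_⟩
  · rw [Matrix.mulVec_smul, Matrix.mulVec_mulVec, h3]
  · rw [map_smul, ← h2, smul_eq_mul, inv_mul_cancel₀ hv]

lemma π2 (D : KD0 H τ e) {f : ι → ℂ} (hf : H.π (-2) *ᵥ f = f) (hef : B H e f = 1) (v : ι → ℂ) :
    H.π 2 *ᵥ v = B H f v • e := by
  obtain ⟨c, hc⟩ := D.rk v
  have h1 : B H (H.π 2 *ᵥ v) f = B H v f := by rw [D.B_π D.w2, hf]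
  rw [hc, map_smul, LinearMap.smul_apply, hef, smul_eq_mul, mul_one] at h1
  rw [hc, h1, D.B_symm]

lemma πm2 (D : KD0 H τ e) {f : ι → ℂ} (hf : H.π (-2) *ᵥ f = f) (hef : B H e f = 1) (v : ι → ℂ) :
    H.π (-2) *ᵥ v = B H e v • f := by
  rw [← sub_eq_zero]
  apply D.B_nondeg
  intro u
  have h1 : B H u (H.π (-2) *ᵥ v) = B H (H.π 2 *ᵥ u) v := (D.B_π D.w2 u v).symm
  rw [map_sub, h1, D.π2 hf hef, map_smul, map_smul, LinearMap.smul_apply, smul_eq_mul,
    smul_eq_mul, D.B_symm u f, mul_comm, sub_self]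


end KD0

end Pool.Agent.V5helper90.ZL
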