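import Pool.Agent.V5helper89.KZ.KFin
import Pool.Agent.V5helper90.ZL.StmA

/-!
# The zero-one law for all K3 surfaces: the group, the determinants, the square (jobs)
-/

set_option autoImplicit false

open CategoryTheory AlgebraicGeometry

universe u

namespace Pool.Agent.V5helper90.ZL

open Matrix Pool.Agent.N996.BP Pool.Agent.N996.FP
open Pool.Agent.V5helper89.KZ.KD (B U Wm)

/-- The transcendental part `T ⊗ ℂ = U τ` of a polarised Hodge structure in coordinates is the direct
sum of the images of the projectors `P c`, which are combinations of Hodge endomorphisms (so they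
commute with all matrices which fix the Hodge classes in degree two, `IsHE.comm_fix`), the adjoint
of `P c` is `P (bar c)`, and the infinitesimal rotation `u ∧ v` (`Wm H u v`) belongs to the Lie algebra `ho H`
for `u` in the image of `P c` and `v` in the image of `P (bar c)`. -/
structure Blocks {ι : Type} [Fintype ι] [DecidableEq ι] (H : HData ι) (τ : ι → Prop) (C : Type)
    [Fintype C] [DecidableEq C] (P : C → Matrix ι ι ℂ) (bar : C → C) : Prop where
  sym : ∀ i j, H.Qr i j = H.Qr j i
  idem : ∀ c, P c * P c = P c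
  orth : ∀ c c', c ≠ c' → P c * P c' = 0
  sum : ∀ v ∈ U τ, (∑ c, P c) *ᵥ v = v
  stab : ∀ c v, P c *ᵥ v ∈ U τ
  alg : ∀ c i, ¬ τ i → P c *ᵥ Pi.single i 1 = 0
  adj : ∀ c, (P c)ᵀ * cQ H.Qr = cQ H.Qr * P (bar c)
  bar_bar : ∀ c, bar (bar c) = c
  comm : ∀ c, P c ∈ Submodule.span ℂ (cQ '' {x | IsHE H x})
  lie : ∀ c u v, P c *ᵥ u = u → P (bar c) *ᵥ v = v → Wm H u v ∈ ho H

/-- JOB ROT (helper90 does this one). -/
def S_ROT : Prop :=
  ∀ (ι : Type) [Fintype ι] [DecidableEq ι] (H : HData ι), (∀ i j, H.Qr i j = H.Qr j i) →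
    ∀ v v' : ι → ℂ, Wm H v v' ∈ ho H → bil (cQ H.Qr) v v = bil (cQ H.Qr) v' v' →
      bil (cQ H.Qr) v v ≠ 0 → bil (cQ H.Qr) v v' ^ 2 ≠ bil (cQ H.Qr) v v ^ 2 →
      ∃ R ∈ So H, R.det = 1 ∧ R *ᵥ v' = v ∧
        ∀ w, bil (cQ H.Qr) v w = 0 → bil (cQ H.Qr) v' w = 0 → R *ᵥ w = w

/-- JOB DIL (helper90 does this one). -/
def S_DIL : Prop :=
  ∀ (ι : Type) [Fintype ι] [DecidableEq ι] (H : HData ι), (∀ i j, H.Qr i j = H.Qr j i) →
    ∀ u v : ι → ℂ, Wm H u v ∈ ho H → bil (cQ H.Qr) u u = 0 → bil (cQ H.Qr) v v = 0 →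
      bil (cQ H.Qr) u v = 1 → ∀ t : ℂ, t ≠ 0 → dil (cQ H.Qr) u v t ∈ So H

/-- JOB GRP. Let `g` fix the algebraic basis vectors and the Hodge classes in degree two, and let the
determinant of `g` on the image of `P c` be one for all `c` with `bar c = c`. Then `g` fixes all
Hodge classes.

Proof. `P c` commutes with `g` (`IsHE.comm_fix` and linearity) and `g` preserves the form `Q = cQ H.Qr`
(`KD.B_of_fixQ (fix_Q H _)` in `Pool/Agent/V5helper89/KZ/Group.lean`; the matrix form `gᵀ Q g = Q` as in
`IsO.tr`; all elements of `So H` also satisfy it, and have inverses in `So H`, `So_ex_inv`). For `c` with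
`bar c = c` let `g_c = 1 - P c + g P c`; it is an isometry (use `adj`), of determinant one, fixes
`ker P c`, so it is in `So H` by `S_SO` with `𝒢 = So H`, and `S_ROT`, `lie`. For `c` with `bar c ≠ c` let
`g_c = 1 - (P c + P (bar c)) + g (P c + P (bar c))`; it is in `So H` by `S_GL` (with `P' = P (bar c)`) and `S_DIL`:
`B(u, u) = 0` for `u` in the image of `P c`, because `B(P c u, P c u) = B(u, P (bar c) P c u) = 0`. For a
subset `S` of `C` with `bar S = S` let `P_S = ∑_{c ∈ S} P c` and `g_S = 1 - P_S + g P_S`. Since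
`g_(S ∪ S') = g_S g_S'` for disjoint `S, S'`, all `g_S` are in `So H` by induction on the number of elements of `S`
(remove `c` and `bar c`). Finally `g_S = g` for `S = C`: both fix the basis vectors outside `τ` (`alg`), and
agree on `U τ` (`sum`). -/
def S_GRP : Prop :=
  ∀ (ι : Type) [Fintype ι] [DecidableEq ι] (H : HData ι) (τ : ι → Prop) (C : Type) [Fintype C]
    [DecidableEq C] (P : C → Matrix ι ι ℂ) (bar : C → C), Blocks H τ C P bar →
    ∀ g : Matrix ι ι ℂ, (∀ i, ¬ τ i → g *ᵥ Pi.single i 1 = Pi.single i 1) →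
      Fixes H g (Unit ⊕ Unit) → (∀ c, bar c = c → (1 - P c + g * P c).det = 1) → g ∈ So H

/-- JOB DA. The determinant array. Let `c = bar c`, and let `v x`, `x ∈ μ`, be algebraic basis
vectors. There is a number `s ≤ #τ` and a complex array `A ≠ 0` on the words indexed by `Fin s ⊕ μ` which is
a complex combination of Hodge classes, supported on words with indices of `τ` in the first `s` places and
`v x` in the place `x`, and which is multiplied by `det (1 - P c + g P c)` by all `g` which fix the
algebraic basis vectors and commute with `P c`. The number `s` does not depend on `μ`, `v`.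

Proof. Let `D` be the array of `S_DT` for the projector `P c` (its rows outside `τ` are zero by `stab`), and
`A = tens D (pta v)` (compare `dpa` in `Pool/Agent/V5helper89/KZ/Det.lean`; for a complex `D` one needs the complex
version `A i = D (i ∘ inl) * ∏ x, if i (inr x) = v x then 1 else 0`). The action: `kp_tens`, `IsO.pta`.
It is a combination of Hodge classes: let `W` be the space of the complex arrays `a` with `kp _ g *ᵥ a = a`
for all `g ∈ GG H`. It is stable under automorphisms of `ℂ` (`GG_map`, `kp_map'`), so it is spanned by its rational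
elements (`Pool.Agent.W437.HD.span_rational`, used as in `comm_span` in `Pool/Agent/N996/FP/Alg3.lean`), which are
Hodge classes (`l_mem_gens`). It remains to see that `A ∈ W`, so that `det (1 - P c + g P c) = 1` for the
generators `g = (H.l t).map σ` of `GG H`: they are squares `g = h ^ 2` (`H.l_mul`, `IsAlgClosed.exists_pow_nat_eq`) of
elements `h` of `GG H ≤ So H` (`GG_So`), and `det (1 - P c + h P c) = ± 1` because `1 - P c + h P c` is an isometry
(`adj`, `bar c = c`; as `IsO.det_sq`), and `(1 - P c + h P c) ^ 2 = 1 - P c + h ^ 2 P c`. (Elements of `So H` fix the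
algebraic basis vectors: hypothesis `hal`, it is `single_BB` in `KZ/Coord.lean`.) -/
def S_DA : Prop :=
  ∀ (ι : Type) [Fintype ι] [DecidableEq ι] (H : HData ι) (τ : ι → Prop) (C : Type) [Fintype C]
    [DecidableEq C] (P : C → Matrix ι ι ℂ) (bar : C → C), Blocks H τ C P bar →
    (∀ g ∈ So H, ∀ i, ¬ τ i → g *ᵥ Pi.single i 1 = Pi.single i 1) →
    ∀ c, bar c = c → ∃ s : ℕ, s ≤ Nat.card {i // τ i} ∧
      ∀ (μ : Type) [Fintype μ] [DecidableEq μ] (v : μ → ι), (∀ x, ¬ τ (v x)) →
        ∃ A : (Fin s ⊕ μ → ι) → ℂ, A ≠ 0 ∧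
          (∀ i, A i ≠ 0 → (∀ a, τ (i (Sum.inl a))) ∧ ∀ x, i (Sum.inr x) = v x) ∧
          A ∈ Submodule.span ℂ (ca '' (BB H (Fin s ⊕ μ) : Set ((Fin s ⊕ μ → ι) → ℚ))) ∧
          ∀ g : Matrix ι ι ℂ, (∀ i, ¬ τ i → g *ᵥ Pi.single i 1 = Pi.single i 1) →
            P c * g = g * P c → kp (Fin s ⊕ μ) g *ᵥ A = (1 - P c + g * P c).det • A

section Geo

open Pool.Agent.H914 Pool.Agent.H914.VarClass Pool.Agent.H914.VarClass.Obj
  Pool.Agent.H914.WeilCohomology
open Pool.Agent.Y133.Half Pool.Agent.Y121.AH

/-- JOB SQ. If all Hodge classes of degree `2 (d + i)` on `X ^ (n + 2)` are algebraic, where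
`0 ≤ i ≤ dim X`, then all Hodge classes of degree `2 d` on `X ^ (n + 1)` are algebraic.

Proof. Let `E` be the divisor class of `T.dec.polar X`, so `tr (E ^ dim X) ≠ 0` (see the proof of `exists_power`
in `Pool/Agent/V5helper89/KZ/KMain.lean`). For a Hodge class `c` on `pw X n` the class `xp c (E ^ i)` is Hodge of
degree `2 (d + i)`, so it is algebraic; multiply with the pull-back of `E ^ (dim X - i)` along the projection
`snd (pw X n) X` and push forward along `fst (pw X n) X`: this gives `tr (E ^ dim X) • c`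
(`Pool.Agent.Y133.Half.push_fst`, `xp` is `map fst * map snd`; even classes commute). The system
`algSys T.W` is closed under these operations (`S.mul`, `S.map`, `S.push`). -/
def S_SQ : Prop :=
  ∀ (k : Type u) [Field k] (𝒱 : VarClass k) (ops : CycleOps 𝒱) (T : HodgeTheory ops) (X : 𝒱.Obj)
    (n d i : ℕ), Nontrivial (T.W.H X) → i ≤ X.dim →
    (∀ c : T.W.H (pw X (n + 1)), IsHodge T (pw X (n + 1)) (d + i) c →
      c ∈ (algSys T.W).C (pw X (n + 1))) →
    ∀ c : T.W.H (pw X n), IsHodge T (pw X n) d c → c ∈ (algSys T.W).C (pw X n)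

end Geo

end Pool.Agent.V5helper90.ZL
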