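import Pool.Agent.V5helper90.ZL.Min
import Pool.Agent.V5helper90.ZL.Stm

/-!
# The decomposition of the transcendental part (Zarhin's theorem)
-/

set_option autoImplicit false
set_option linter.unusedSectionVars false

namespace Pool.Agent.V5helper90.ZL

open Matrix Pool.Agent.N996.BP Pool.Agent.N996.FP ComplexConjugate
open Pool.Agent.V5helper89.KZ
open Pool.Agent.V5helper89.KZ.KD (B B_apply QQ QQ' U mem_U B_single exists_proj L Wm Wm_mulVec)

variable {ι : Type} [Fintype ι] [DecidableEq ι]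

namespace KDp

variable {H : HData ι} {τ : ι → Prop} {e f : ι → ℂ} {p q : Matrix ι ι ℂ}

/-! ### The sum of the conjugates -/

lemma map_sumM {κ : Type} (s : Finset κ) (g : κ → Matrix ι ι ℂ) (σ : ℂ ≃+* ℂ) :
    (∑ c ∈ s, g c).map σ = ∑ c ∈ s, (g c).map σ := by
  ext i j
  rw [Matrix.map_apply, Matrix.sum_apply, Matrix.sum_apply, map_sum]
  rfl

lemma sum_eq (D : KDp H τ e f p) [Fintype (conjs p)] [DecidablePred τ] :
    ∑ c : conjs p, (c : Matrix ι ι ℂ) = oneT τ := by
  classical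
  obtain ⟨s, hs⟩ : ∃ s, s = ∑ c : conjs p, (c : Matrix ι ι ℂ) := ⟨_, rfl⟩
  rw [← hs]
  have hsE : IsE H τ s := by
    rw [hs]
    exact IsE.sum _ fun c _ => D.cIsE c.2
  have hmap : ∀ σ : ℂ ≃+* ℂ, s.map σ = s := by
    intro σ
    rw [hs, map_sumM]
    let ε : conjs p ≃ conjs p :=
      { toFun := fun c => ⟨(c : Matrix ι ι ℂ).map σ, conjs_map c.2 σ⟩
        invFun := fun c => ⟨(c : Matrix ι ι ℂ).map σ.symm, conjs_map c.2 σ.symm⟩
        left_inv := fun c => Subtype.ext (map_symm' σ _)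
        right_inv := fun c => Subtype.ext (map_symm σ _) }
    exact Equiv.sum_comp ε fun c : conjs p => (c : Matrix ι ι ℂ)
  have hsp : s * p = p := by
    rw [hs, Finset.sum_mul, Finset.sum_eq_single (⟨p, self_conjs⟩ : conjs p)]
    · exact D.sq
    · intro c _ hc
      exact D.corth c.2 self_conjs (fun h => hc (Subtype.ext h))
    · intro h; exact absurd (Finset.mem_univ _) h
  have hlam : lam H e f s = 1 := by
    have h1 := D.mul_p hsE
    rw [hsp] at h1
    have h2 : (1 - lam H e f s) • p = 0 := by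
      rw [sub_smul, one_smul, ← h1, sub_self]
    exact (sub_eq_zero.1 ((smul_eq_zero.1 h2).resolve_right D.p_ne)).symm
  have h1 : oneT τ - s = 0 := by
    refine D.eq_zero_of_lam ((isE_oneT D.toKD0).sub hsE) fun σ => ?_
    have h2 : (oneT τ - s).map σ = oneT τ - s := by
      have h3 : (oneT τ - s).map σ = (oneT τ).map σ - s.map σ := by
        ext i j
        exact map_sub σ _ _
      rw [h3, oneT_map, hmap]
    rw [h2, KDf.lam_sub, hlam, lam, oneT_U D.eU, D.fe, sub_self]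
  exact (sub_eq_zero.1 h1).symm

/-! ### The adjoints -/

lemma adj_p_conjs (D : KDp H τ e f p) : adj H p ∈ conjs p := by
  classical
  have := D.finite.fintype
  obtain ⟨q, hq⟩ : ∃ q, q = adj H p := ⟨_, rfl⟩
  rw [← hq]
  have hqE : IsE H τ q := by rw [hq]; exact D.isE.adj D.toKD0
  have hq2 : q * q = q := by rw [hq, ← adj_mul, D.sq]
  have hqa : adj H q = p := by rw [hq]; exact adj_adj D.toKD0 p
  have hq0 : q ≠ 0 := by
    intro h
    apply D.p_ne
    rw [← hqa, h, adj, Matrix.transpose_zero, Matrix.mul_zero, Matrix.zero_mul]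
  have hmul : ∀ x, IsE H τ x → ∃ a : ℂ, x * q = a • q := by
    intro x hx
    refine ⟨lam H e f (adj H x), ?_⟩
    rw [← adj_adj D.toKD0 (x * q), adj_mul, hqa, D.comm' D.isE (hx.adj D.toKD0),
      D.mul_p (hx.adj D.toKD0), adj_smul, hq]
  have h1 : ∃ c : conjs p, (c : Matrix ι ι ℂ) * q ≠ 0 := by
    by_contra hcon
    push Not at hcon
    apply hq0
    have h2 : oneT τ * q = q := by
      apply Matrix.toLin'.injective
      apply LinearMap.ext
      intro v
      rw [Matrix.toLin'_apply, Matrix.toLin'_apply, ← Matrix.mulVec_mulVec, oneT_U (hqE.img v)]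
    rw [← h2, ← D.sum_eq, Finset.sum_mul]
    exact Finset.sum_eq_zero fun c _ => hcon c
  obtain ⟨c, hc⟩ := h1
  rw [← D.orth_gen (D.cIsE c.2) hqE (D.csq c.2) hq2 (hmul _ (D.cIsE c.2)) (D.mul_c hqE c.2) hc]
  exact c.2

lemma adj_conjs (D : KDp H τ e f p) {x : Matrix ι ι ℂ} (hx : x ∈ conjs p) :
    adj H x ∈ conjs p := by
  obtain ⟨σ, rfl⟩ := hx
  rw [adj_map]
  exact conjs_map D.adj_p_conjs σ

/-! ### The Lie algebra: the orthogonal case -/

lemma pf (D : KDp H τ e f p) : adj H p *ᵥ f = f := by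
  rw [D.eigf (D.isE.adj D.toKD0), ← B_adj, D.pe, D.hef, one_smul]

lemma lieA (D : KDp H τ e f p) (hp : adj H p = p) {u v : ι → ℂ} (hu : p *ᵥ u = u)
    (hv : p *ᵥ v = v) : Wm H u v ∈ ho H := by
  classical
  let M : Submodule ℂ (ι → ℂ) :=
    { carrier := {v | p *ᵥ v = v}
      add_mem' := fun {a b} (ha : _ = _) (hb : _ = _) => by
        change p *ᵥ (a + b) = _
        rw [Matrix.mulVec_add, ha, hb]
      zero_mem' := Matrix.mulVec_zero _
      smul_mem' := fun c a (ha : _ = _) => by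
        change p *ᵥ (c • a) = _
        rw [Matrix.mulVec_smul, ha] }
  have hMU : M ≤ U τ := fun w (hw : _ = _) => by
    rw [← hw]
    exact D.isE.img w
  have key : IrrDat (B H) (L H) M e f :=
    { sym := D.B_symm
      skew := fun y hy u v => by
        obtain ⟨z, hz, rfl⟩ := KD.mem_L.1 hy
        exact D.ho_B hz u v
      br := fun x hx y hy => by
        obtain ⟨z, hz, rfl⟩ := KD.mem_L.1 hx
        obtain ⟨z', hz', rfl⟩ := KD.mem_L.1 hy
        refine KD.mem_L.2 ⟨br z z', ho_br hz hz', ?_⟩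
        rw [br, map_sub, Matrix.toLin'_mul, Matrix.toLin'_mul]
        rfl
      stab := fun y hy u (hu : _ = _) => by
        obtain ⟨z, hz, rfl⟩ := KD.mem_L.1 hy
        change p *ᵥ (z *ᵥ u) = z *ᵥ u
        rw [Matrix.mulVec_mulVec, D.isE.comm z hz, ← Matrix.mulVec_mulVec, hu]
      irr := fun M' hM' hst => by
        obtain ⟨q, hq, h1, h2⟩ := exists_isE D.toKD0 M' (hM'.trans hMU)
          (fun z hz v hv => hst _ (KD.mem_L.2 ⟨z, hz, rfl⟩) v hv)
        have h3 := D.mul_p hq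
        have hqq : q * q = q := by
          apply Matrix.toLin'.injective
          apply LinearMap.ext
          intro v
          rw [Matrix.toLin'_apply, Matrix.toLin'_apply, ← Matrix.mulVec_mulVec]
          exact h2 _ (h1 v)
        have h4 : lam H e f q * (lam H e f q - 1) = 0 := by
          have h5 := D.lam_mul hq hq
          rw [hqq] at h5
          linear_combination -h5
        rcases mul_eq_zero.1 h4 with h5 | h5
        · left
          rw [Submodule.eq_bot_iff]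
          intro v hv
          have h6 : p *ᵥ v = v := hM' hv
          have h7 := h2 v hv
          rw [← h6, Matrix.mulVec_mulVec, h3, h5, zero_smul, Matrix.zero_mulVec, h6] at h7
          exact h7.symm
        · right
          intro v hv
          have h6 : p *ᵥ v = v := hv
          have h7 : q * p = p := by rw [h3, sub_eq_zero.1 h5, one_smul]
          rw [← h6, ← h7, ← Matrix.mulVec_mulVec]
          exact h1 _
      he := D.pe
      hf := by
        change p *ᵥ f = f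
        conv_lhs => rw [← hp]
        exact D.pf
      ee := D.ee
      ff := D.ff
      ef := D.hef
      mem := D.mem_L }
  obtain ⟨z, hz, h⟩ := KD.mem_L.1 (key.all (show u ∈ M from hu) (show v ∈ M from hv))
  rw [Wm, ← h, LinearMap.toMatrix'_toLin']
  exact hz

/-! ### The Lie algebra: the unitary case -/

lemma Wm_br (D : KD0 H τ e) {y : Matrix ι ι ℂ} (hy : y ∈ ho H) (a b : ι → ℂ) :
    br y (Wm H a b) = Wm H (y *ᵥ a) b + Wm H a (y *ᵥ b) := by
  apply Matrix.toLin'.injective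
  have h1 := wdg_br (B := B H) (y := Matrix.toLin' y) (fun u v => D.ho_B hy u v) a b
  rw [br, map_sub, map_add, Matrix.toLin'_mul, Matrix.toLin'_mul]
  simp only [Wm, Matrix.toLin'_toMatrix']
  exact h1

lemma Wm_add_left (u u' v : ι → ℂ) : Wm H (u + u') v = Wm H u v + Wm H u' v := by
  rw [Wm, wdg_add_left, map_add]
  rfl

lemma Wm_smul_left (c : ℂ) (u v : ι → ℂ) : Wm H (c • u) v = c • Wm H u v := by
  rw [Wm, wdg_smul_left, map_smul]
  rfl

lemma Wm_smul_right (c : ℂ) (u v : ι → ℂ) : Wm H u (c • v) = c • Wm H u v := by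
  rw [Wm, wdg_smul_right, map_smul]
  rfl

lemma Wm_add_right (u v v' : ι → ℂ) : Wm H u (v + v') = Wm H u v + Wm H u v' := by
  rw [Wm, wdg_add_right, map_add]
  rfl

lemma Wm_swap (u v : ι → ℂ) : Wm H v u = -Wm H u v := by
  rw [Wm, wdg_swap, map_neg]
  rfl

lemma Wm_ef (D : KDp H τ e f p) : Wm H e f ∈ ho H := by
  rw [Wm_swap]
  exact (ho H).neg_mem D.Wm_fe

/-- The second minimality property. -/
lemma mini' (D : KDp H τ e f p) (N : Submodule ℂ (ι → ℂ)) (hf : f ∈ N)
    (hN : ∀ z ∈ ho H, ∀ v ∈ N, z *ᵥ v ∈ N) (v : ι → ℂ) : adj H p *ᵥ v ∈ N := by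
  classical
  obtain ⟨x, hx, h1, h2⟩ := exists_isE D.toKD0 (N ⊓ U τ) inf_le_right
    (fun z hz v hv => ⟨hN z hz v hv.1, D.ho_stab hz v⟩)
  have hxf : x *ᵥ f = f := h2 f ⟨hf, D.fU⟩
  have h3 : x * adj H p = lam H e f (adj H x) • adj H p := by
    rw [← adj_adj D.toKD0 (x * adj H p), adj_mul, adj_adj D.toKD0 p,
      D.comm' D.isE (hx.adj D.toKD0), D.mul_p (hx.adj D.toKD0), adj_smul]
  have h4 : lam H e f (adj H x) = 1 := by
    rw [lam, D.B_symm, B_adj, adj_adj D.toKD0, hxf, D.hef]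
  rw [h4, one_smul] at h3
  rw [← h3, ← Matrix.mulVec_mulVec]
  exact (h1 _).1

lemma lieB (D : KDp H τ e f p) (hp : adj H p * p = 0) {u v : ι → ℂ} (hu : p *ᵥ u = u)
    (hv : adj H p *ᵥ v = v) : Wm H u v ∈ ho H := by
  have iso : ∀ a b, p *ᵥ a = a → p *ᵥ b = b → B H a b = 0 := by
    intro a b ha hb
    rw [← ha, ← hb, B_adj, Matrix.mulVec_mulVec, hp, Matrix.zero_mulVec, map_zero]
  have y0e : Wm H f e *ᵥ e = e := by
    rw [Wm_mulVec, D.fe, D.ee, one_smul, zero_smul, sub_zero]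
  have y0f : Wm H f e *ᵥ f = -f := by
    rw [Wm_mulVec, D.ff, D.hef, one_smul, zero_smul, zero_sub]
  have y0a : ∀ a, p *ᵥ a = a → Wm H f e *ᵥ a = B H f a • e := by
    intro a ha
    rw [Wm_mulVec, iso e a D.pe ha, zero_smul, sub_zero]
  have stp : ∀ y ∈ ho H, ∀ a, p *ᵥ a = a → p *ᵥ (y *ᵥ a) = y *ᵥ a := by
    intro y hy a ha
    rw [Matrix.mulVec_mulVec, D.isE.comm y hy, ← Matrix.mulVec_mulVec, ha]
  -- the first step
  have step : ∀ y ∈ ho H, ∀ a, p *ᵥ a = a → Wm H a f ∈ ho H →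
      B H f a • Wm H e (y *ᵥ f) - Wm H (y *ᵥ a) f ∈ ho H := by
    intro y hy a ha hW
    have h1 : Wm H (y *ᵥ a) f + Wm H a (y *ᵥ f) ∈ ho H := by
      rw [← Wm_br D.toKD0 hy]
      exact ho_br hy hW
    have h2 := ho_br D.Wm_fe h1
    have h3 : br (Wm H f e) (Wm H (y *ᵥ a) f + Wm H a (y *ᵥ f)) =
        br (Wm H f e) (Wm H (y *ᵥ a) f) + br (Wm H f e) (Wm H a (y *ᵥ f)) := by
      rw [br, br, br, Matrix.mul_add, Matrix.add_mul]
      abel
    have h5 : Wm H f e *ᵥ (y *ᵥ f) = B H f (y *ᵥ f) • e - B H e (y *ᵥ f) • f := Wm_mulVec _ _ _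
    rw [h3, Wm_br D.toKD0 D.Wm_fe, Wm_br D.toKD0 D.Wm_fe, y0f, y0a _ (stp y hy a ha), y0a a ha,
      h5] at h2
    have h6 : B H f (y *ᵥ f) = 0 := by
      have h7 := D.ho_B hy f f
      rw [D.B_symm] at h7
      have h8 : (2 : ℂ) * B H f (y *ᵥ f) = 0 := by linear_combination h7
      exact (mul_eq_zero.1 h8).resolve_left two_ne_zero
    rw [h6, zero_smul, zero_sub, Wm_smul_left, Wm_smul_left] at h2
    have h7 : ∀ w, Wm H w (-f) = -Wm H w f := fun w => by
      rw [← neg_one_smul ℂ f, Wm_smul_right, neg_one_smul]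
    have h8 : Wm H a (-(B H e (y *ᵥ f) • f)) = -(B H e (y *ᵥ f) • Wm H a f) := by
      rw [← neg_smul, Wm_smul_right, neg_smul]
    rw [h7, h8] at h2
    have h9 := (ho H).sub_mem h2 ((ho H).smul_mem (B H f (y *ᵥ a)) D.Wm_ef)
    have h10 := (ho H).add_mem h9 ((ho H).smul_mem (B H e (y *ᵥ f)) hW)
    have h11 : B H f a • Wm H e (y *ᵥ f) - Wm H (y *ᵥ a) f =
        B H f (y *ᵥ a) • Wm H e f + -Wm H (y *ᵥ a) f +
          (B H f a • Wm H e (y *ᵥ f) + -(B H e (y *ᵥ f) • Wm H a f)) -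
          B H f (y *ᵥ a) • Wm H e f + B H e (y *ᵥ f) • Wm H a f := by abel
    rw [h11]
    exact h10
  have he : ∀ y ∈ ho H, Wm H e (y *ᵥ f) ∈ ho H := by
    intro y hy
    have h1 := step y hy e D.pe D.Wm_ef
    rw [D.fe, one_smul] at h1
    have h2 : Wm H (y *ᵥ e) f + Wm H e (y *ᵥ f) ∈ ho H := by
      rw [← Wm_br D.toKD0 hy]
      exact ho_br hy D.Wm_ef
    have h3 := (ho H).smul_mem (2 : ℂ)⁻¹ ((ho H).add_mem h1 h2)
    have h4 : (2 : ℂ)⁻¹ • (Wm H e (y *ᵥ f) - Wm H (y *ᵥ e) f +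
        (Wm H (y *ᵥ e) f + Wm H e (y *ᵥ f))) = Wm H e (y *ᵥ f) := by
      module
    rwa [h4] at h3
  have h1 : ∀ a, p *ᵥ a = a → Wm H a f ∈ ho H := by
    let N : Submodule ℂ (ι → ℂ) :=
      { carrier := {a | p *ᵥ a = a ∧ Wm H a f ∈ ho H}
        add_mem' := fun {a b} ha hb => ⟨by rw [Matrix.mulVec_add, ha.1, hb.1], by
          rw [Wm_add_left]; exact (ho H).add_mem ha.2 hb.2⟩
        zero_mem' := ⟨Matrix.mulVec_zero _, by
          have : Wm H (0 : ι → ℂ) f = 0 := by
            rw [← zero_smul ℂ (0 : ι → ℂ), Wm_smul_left, zero_smul]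
          rw [this]; exact (ho H).zero_mem⟩
        smul_mem' := fun c a ha => ⟨by rw [Matrix.mulVec_smul, ha.1], by
          rw [Wm_smul_left]; exact (ho H).smul_mem c ha.2⟩ }
    intro a ha
    have h2 := D.mini N ⟨D.pe, D.Wm_ef⟩ (fun y hy a ha => ⟨stp y hy a ha.1, by
      have h3 := step y hy a ha.1 ha.2
      have h4 := (ho H).sub_mem ((ho H).smul_mem (B H f a) (he y hy)) h3
      have h5 : B H f a • Wm H e (y *ᵥ f) - (B H f a • Wm H e (y *ᵥ f) - Wm H (y *ᵥ a) f) =
          Wm H (y *ᵥ a) f := by abel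
      rwa [h5] at h4⟩) a
    rw [ha] at h2
    exact h2.2
  let N : Submodule ℂ (ι → ℂ) :=
    { carrier := {b | ∀ a, p *ᵥ a = a → Wm H a b ∈ ho H}
      add_mem' := fun {b c} hb hc a ha => by
        rw [Wm_add_right]; exact (ho H).add_mem (hb a ha) (hc a ha)
      zero_mem' := fun a ha => by
        have : Wm H a (0 : ι → ℂ) = 0 := by
          rw [← zero_smul ℂ (0 : ι → ℂ), Wm_smul_right, zero_smul]
        rw [this]; exact (ho H).zero_mem
      smul_mem' := fun c b hb a ha => by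
        rw [Wm_smul_right]; exact (ho H).smul_mem c (hb a ha) }
  have h2 := D.mini' N (fun a ha => h1 a ha) (fun y hy b hb a ha => by
    have h3 : Wm H (y *ᵥ a) b + Wm H a (y *ᵥ b) ∈ ho H := by
      rw [← Wm_br D.toKD0 hy]
      exact ho_br hy (hb a ha)
    have h4 := (ho H).sub_mem h3 (hb _ (stp y hy a ha))
    have h5 : Wm H (y *ᵥ a) b + Wm H a (y *ᵥ b) - Wm H (y *ᵥ a) b = Wm H a (y *ᵥ b) := by abel
    rwa [h5] at h4) v
  rw [hv] at h2
  exact h2 u hu

lemma lie0 (D : KDp H τ e f p) {u v : ι → ℂ} (hu : p *ᵥ u = u) (hv : adj H p *ᵥ v = v) :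
    Wm H u v ∈ ho H := by
  by_cases h : adj H p = p
  · rw [h] at hv
    exact D.lieA h hu hv
  · exact D.lieB (D.corth D.adj_p_conjs self_conjs h) hu hv

end KDp

/-- **The decomposition.** -/
theorem KD0.blocks {H : HData ι} {τ : ι → Prop} {e : ι → ℂ} (D₀ : KD0 H τ e) :
    ∃ (C : Type) (_ : Fintype C) (_ : DecidableEq C) (P : C → Matrix ι ι ℂ) (bar : C → C),
      Blocks H τ C P bar := by
  classical
  obtain ⟨f, Df⟩ := D₀.kdf
  obtain ⟨p, D⟩ := Df.kdp
  have := D.finite.fintype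
  refine ⟨KDp.conjs p, this, inferInstance, fun c => c, fun c => ⟨adj H c, D.adj_conjs c.2⟩, ?_⟩
  exact
    { sym := D₀.sym
      idem := fun c => D.csq c.2
      orth := fun c c' h => D.corth c.2 c'.2 (fun h' => h (Subtype.ext h'))
      sum := fun v hv => by rw [D.sum_eq, oneT_U hv]
      stab := fun c v => (D.cIsE c.2).img v
      alg := fun c i hi => (D.cIsE c.2).alg hi
      adj := fun c => adj_form _
      bar_bar := fun c => Subtype.ext (adj_adj D₀ _)
      comm := fun c => comm_span fun g hg => comm_GG (D.cIsE c.2).comm hg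
      lie := fun c u v hu hv => by
        obtain ⟨c, σ, rfl⟩ := c
        have h1 : Wm H (mv σ.symm u) (mv σ.symm v) ∈ ho H := by
          refine D.lie0 ?_ ?_
          · have h2 := congrArg (mv σ.symm) hu
            simp only [mv_mulVec, map_symm'] at h2
            exact h2
          · have h2 := congrArg (mv σ.symm) hv
            simp only [mv_mulVec, adj_map, map_symm'] at h2
            exact h2
        have h3 := ho_map σ h1
        rwa [Wm_map, mv_symm, mv_symm] at h3 }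

end Pool.Agent.V5helper90.ZL
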