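import Pool.Agent.V5helper90.ZL.Blk

/-!
# Families which contain all Hodge classes of one degree on one power
-/

set_option autoImplicit false
set_option linter.unusedSectionVars false

universe u

namespace Pool.Agent.V5helper90.ZL

open Matrix Pool.Agent.N996.BP Pool.Agent.N996.FP ComplexConjugate
open Pool.Agent.V5helper89.KZ
open Pool.Agent.V5helper89.KZ.KD (B B_apply U Wm)

variable {ι : Type} [Fintype ι] [DecidableEq ι] {H : HData ι} {τ : ι → Prop} {e : ι → ℂ}
variable {A : ∀ n : ℕ, Submodule ℚ ((Fin (n + 1) → ι) → ℚ)}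

/-- **Closure** (adapted from `KD.mem_fam` of helper89). A family which contains the Hodge classes of
degree at most two contains all Hodge classes fixed by the matrices which fix the family. -/
theorem mem_fam0 (hA : RFam H A) (hN : ∀ n, n + 1 ≤ 2 → BB H (Fin (n + 1)) ≤ A n) {n : ℕ}
    {h : (Fin (n + 1) → ι) → ℚ} (hh : h ∈ BB H (Fin (n + 1)))
    (hfix : ∀ g, Fixes H g Unit → Fixes H g (Unit ⊕ Unit) →
      (∀ (m : ℕ) (a : (Fin (m + 1) → ι) → ℚ), a ∈ A m →
        kp (Fin (m + 1)) g *ᵥ ca a = ca a) → kp (Fin (n + 1)) g *ᵥ ca h = ca h) : h ∈ A n := by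
  classical
  have hfam := hA.isFam hN le_rfl
  have h1 : (fun i => (h i : ℝ)) ∈ AR A (Fin (n + 1)) := by
    refine mem_of_fixed (κ := Fin (n + 1)) hfam _ ?_ ?_
    · have h1 := hh Complex.I Complex.I_ne_zero
      rw [← cR_C, kp_cR] at h1
      ext i
      have h2 := congrFun h1 i
      rw [Matrix.mulVec, dotProduct] at h2 ⊢
      have h3 : ((∑ j, kp (Fin (n + 1)) H.D.C i j * (h j : ℝ) : ℝ) : ℂ) = (((h i : ℝ)) : ℂ) := by
        push_cast
        exact h2
      exact_mod_cast h3
    · intro g hg
      have h1 : ∀ (κ : Type) [Fintype κ] [DecidableEq κ], Fintype.card κ ≤ 2 → Fixes H g κ := by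
        intro κ _ _ hκ a ha
        have h4 := hg κ _ (AR_of (hA.of_small hN hκ ha))
        simp only [Complex.ofReal_ratCast] at h4
        exact h4
      have h3 := hfix g (h1 _ (by simp)) (h1 _ (by simp)) (fun m a ha => by
        have h4 := hg (Fin (m + 1)) _ (AR_of (hA.mem_iff.2 ha))
        simp only [Complex.ofReal_ratCast] at h4
        exact h4)
      simp only [Complex.ofReal_ratCast]
      exact h3
  rw [← hA.mem_iff]
  exact descent _ h1

/-- Matrices which fix the Hodge classes of degree one fix the algebraic basis vectors. -/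
lemma fix_alg (D : KD0 H τ e) {g : Matrix ι ι ℂ} (h1 : Fixes H g Unit) (i : ι) (hi : ¬ τ i) :
    g *ᵥ Pi.single i 1 = Pi.single i 1 := by
  have h3 := h1 _ (D.single_BB hi)
  have h4 : ca (un (Pi.single i (1 : ℚ)) : (Unit → ι) → ℚ) = un (Pi.single i (1 : ℂ)) := by
    funext f
    rw [ca, un, un, Pi.single_apply, Pi.single_apply]
    split_ifs <;> simp
  rw [h4, kp_un] at h3
  exact un_inj h3

/-- The rank of the transcendental part is at least two. -/
lemma KD0.two_le (D : KD0 H τ e) [DecidablePred τ] : 2 ≤ Fintype.card {j // τ j} := by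
  obtain ⟨f, Df⟩ := D.kdf
  by_contra hcon
  have h1 : Fintype.card {j // τ j} ≤ 1 := by omega
  have hne : ∃ j, τ j := by
    by_contra h
    push Not at h
    apply D.ne
    funext i
    exact Df.eU i (h i)
  obtain ⟨j, hj⟩ := hne
  have h2 : ∀ v ∈ U τ, v = v j • Pi.single j 1 := by
    intro v hv
    funext i
    by_cases hij : i = j
    · rw [hij, Pi.smul_apply, Pi.single_eq_same, smul_eq_mul, mul_one]
    · rw [Pi.smul_apply, Pi.single_eq_of_ne hij, smul_zero]
      apply hv
      intro hi
      exact hij (congrArg Subtype.val (Fintype.card_le_one_iff.1 h1 ⟨i, hi⟩ ⟨j, hj⟩))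
  have h3 := Df.ee
  have h4 := Df.hef
  rw [h2 e Df.eU] at h3 h4
  rw [h2 f Df.fU] at h4
  rw [map_smul, map_smul, LinearMap.smul_apply, smul_eq_mul, smul_eq_mul] at h3 h4
  have h6 : e j ≠ 0 := by
    intro h0
    rw [h0, zero_mul, mul_zero] at h4
    exact zero_ne_one h4
  have h7 : B H (Pi.single j 1) (Pi.single j 1) = 0 := by
    rcases mul_eq_zero.1 h3 with h | h
    · exact absurd h h6
    · rcases mul_eq_zero.1 h with h | h
      · exact absurd h h6
      · exact h
  rw [h7, mul_zero, mul_zero] at h4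
  exact zero_ne_one h4

variable {deg : ι → ℕ}

/-- The part of degree `D` of an array. -/
def dpart (deg : ι → ℕ) {n : ℕ} (D : ℕ) (a : (Fin (n + 1) → ι) → ℚ) : (Fin (n + 1) → ι) → ℚ :=
  fun w => if ∑ i, deg (w i) = D then a w else 0

/-- **The core.** Let `A` be a family which contains the Hodge classes of degree at most two and the
parts of degree `2 d` of all Hodge classes on words of length `n + 1`, where
`m r ≤ d ≤ 2 m (n + 1) - m r` and the algebraic basis vectors occur in all even degrees up to `4 m`. Then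
`A` contains all Hodge classes. -/
theorem core (hG : S_GRP) (hD : S_DA) (D : KD0 H τ e) [DecidablePred τ] (hA : RFam H A)
    (hN : ∀ n, n + 1 ≤ 2 → BB H (Fin (n + 1)) ≤ A n) {m n d : ℕ} (hm : 0 < m)
    (hτ : ∀ j, τ j → deg j = 2 * m) (halg : ∀ i ≤ 2 * m, ∃ j, ¬ τ j ∧ deg j = 2 * i)
    (hd : m * Fintype.card {j // τ j} ≤ d)
    (hd' : d + m * Fintype.card {j // τ j} ≤ 2 * m * (n + 1))
    (hdeg : ∀ a ∈ BB H (Fin (n + 1)), dpart deg (2 * d) a ∈ A n) (n' : ℕ) :
    BB H (Fin (n' + 1)) ≤ A n' := by
  classical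
  intro h hh
  obtain ⟨C, _, _, P, bar, hB⟩ := D.blocks
  refine mem_fam0 hA hN hh fun g hg1 hg2 hgA => ?_
  have hgalg := fix_alg D hg1
  have hgP : ∀ c, P c * g = g * P c := by
    intro c
    have h1 := hB.comm c
    generalize P c = x₀ at h1
    induction h1 using Submodule.span_induction with
    | mem x hx =>
      obtain ⟨y, hy, rfl⟩ := hx
      exact (hy.comm_fix hg2).symm
    | zero => rw [Matrix.zero_mul, Matrix.mul_zero]
    | add x y _ _ hx hy => rw [Matrix.add_mul, Matrix.mul_add, hx, hy]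
    | smul a x _ hx => rw [Matrix.smul_mul, Matrix.mul_smul, hx]
  refine hG ι H τ C P bar hB g hgalg hg2 (fun c hc => ?_) _ h hh
  obtain ⟨s, hs, hs'⟩ := hD ι H τ C P bar hB (fun g hg => fix_alg D (hg Unit)) c hc
  obtain ⟨r, hr⟩ : ∃ r, r = Fintype.card {j // τ j} := ⟨_, rfl⟩
  rw [Nat.card_eq_fintype_card, ← hr] at hs
  rw [← hr] at hd hd'
  have hms : m * s ≤ m * r := Nat.mul_le_mul_left _ hs
  have hrn : s ≤ n + 1 := by
    have h1 : 2 * m * s ≤ 2 * m * (n + 1) := by
      have : 2 * m * s = m * s + m * s := by ring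
      omega
    exact Nat.le_of_mul_le_mul_left h1 (by omega)
  -- the other factors
  obtain ⟨N, hN'⟩ : ∃ N, n + 1 = s + N := ⟨n + 1 - s, by omega⟩
  obtain ⟨f, hf, hsum⟩ := exists_parts (2 * m) N (d - m * s) (by
    rw [hN'] at hd'
    have h1 : 2 * m * (s + N) = m * s + m * s + N * (2 * m) := by ring
    omega)
  choose u hu hu' using fun x => halg (f x) (hf x)
  obtain ⟨a, ha0, hasupp, haspan, hact⟩ := hs' (Fin N) u hu
  have h1 := hact g hgalg (hgP c)
  let ε : Fin s ⊕ Fin N ≃ Fin (n + 1) := Fintype.equivOfCardEq (by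
    rw [Fintype.card_sum, Fintype.card_fin, Fintype.card_fin, Fintype.card_fin, hN'])
  -- the array is fixed by `g`
  have hsupp : ∀ w, rei ε a w ≠ 0 → ∑ i, deg (w i) = 2 * d := by
    intro w hw
    obtain ⟨h1, h2⟩ := hasupp _ hw
    rw [← Equiv.sum_comp ε, Fintype.sum_sum_type]
    have h3 : ∑ a : Fin s, deg (w (ε (Sum.inl a))) = s * (2 * m) := by
      have h6 : ∀ a : Fin s, deg (w (ε (Sum.inl a))) = 2 * m := fun a => hτ _ (h1 a)
      rw [Finset.sum_congr rfl fun a _ => h6 a, Finset.sum_const, Finset.card_univ,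
        Fintype.card_fin, smul_eq_mul]
    have h4 : ∑ x : Fin N, deg (w (ε (Sum.inr x))) = 2 * (d - m * s) := by
      rw [← hsum, Finset.mul_sum]
      refine Finset.sum_congr rfl fun x _ => ?_
      have h5 : w (ε (Sum.inr x)) = u x := h2 x
      rw [h5, hu']
    rw [h3, h4]
    have h5 : s * (2 * m) = 2 * (m * s) := by ring
    omega
  have hfixB : ∀ b ∈ Submodule.span ℂ
      (ca '' (BB H (Fin s ⊕ Fin N) : Set ((Fin s ⊕ Fin N → ι) → ℚ))),
      kp (Fin (n + 1)) g *ᵥ (fun w => if ∑ i, deg (w i) = 2 * d then rei ε b w else 0) =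
        fun w => if ∑ i, deg (w i) = 2 * d then rei ε b w else 0 := by
    intro b hb
    induction hb using Submodule.span_induction with
    | mem x hx =>
      obtain ⟨y, hy, rfl⟩ := hx
      have h2 := hdeg _ (RFam.BB_rei ε hy)
      have h3 := hgA n _ h2
      have h4 : ca (dpart deg (2 * d) (rei ε y)) =
          fun w => if ∑ i, deg (w i) = 2 * d then rei ε (ca y) w else 0 := by
        funext w
        rw [ca, dpart]
        split_ifs
        · rfl
        · exact Rat.cast_zero
      rwa [h4] at h3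
    | zero =>
      have h2 : (fun w : Fin (n + 1) → ι => if ∑ i, deg (w i) = 2 * d then
          rei ε (0 : (Fin s ⊕ Fin N → ι) → ℂ) w else 0) = 0 := by
        funext w
        split_ifs <;> rfl
      rw [h2, Matrix.mulVec_zero]
    | add x y _ _ hx hy =>
      have h2 : (fun w : Fin (n + 1) → ι => if ∑ i, deg (w i) = 2 * d then
          rei ε (x + y) w else 0) =
          (fun w : Fin (n + 1) → ι => if ∑ i, deg (w i) = 2 * d then rei ε x w else 0) +
          fun w : Fin (n + 1) → ι => if ∑ i, deg (w i) = 2 * d then rei ε y w else 0 := by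
        funext w
        rw [Pi.add_apply]
        split_ifs
        · rfl
        · rw [add_zero]
      rw [h2, Matrix.mulVec_add, hx, hy]
    | smul c x _ hx =>
      have h2 : (fun w : Fin (n + 1) → ι => if ∑ i, deg (w i) = 2 * d then
          rei ε (c • x) w else 0) =
          c • (fun w : Fin (n + 1) → ι => if ∑ i, deg (w i) = 2 * d then rei ε x w else 0) := by
        funext w
        rw [Pi.smul_apply]
        split_ifs
        · rfl
        · rw [smul_zero]
      rw [h2, Matrix.mulVec_smul, hx]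
  have h2 := hfixB a haspan
  have h3 : (fun w : Fin (n + 1) → ι => if ∑ i, deg (w i) = 2 * d then rei ε a w else 0) =
      rei ε a := by
    funext w
    by_cases hw : rei ε a w = 0
    · rw [hw, ite_self]
    · rw [if_pos (hsupp w hw)]
  rw [h3, kp_rei, h1] at h2
  -- the determinant
  have h4 : (1 - P c + g * P c).det • a = a := by
    have h5 := congrArg (rei ε.symm) h2
    rw [rei_rei, rei_rei, Equiv.self_trans_symm] at h5
    exact h5
  have h5 : ((1 - P c + g * P c).det - 1) • a = 0 := by rw [sub_smul, h4, one_smul, sub_self]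
  exact sub_eq_zero.1 ((smul_eq_zero.1 h5).resolve_right ha0)

end Pool.Agent.V5helper90.ZL
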