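import Pool.Agent.V5helper90.ZL.Blk
import Pool.Agent.V5helper90.ZL.Fam

/-!
# The decomposition of the transcendental part: ranks
-/

set_option autoImplicit false
set_option linter.unusedSectionVars false

namespace Pool.Agent.V5helper90.ZL

open Matrix Pool.Agent.N996.BP Pool.Agent.N996.FP ComplexConjugate
open Pool.Agent.V5helper89.KZ
open Pool.Agent.V5helper89.KZ.KD (B B_apply U Wm Wm_mulVec)

variable {ι : Type} [Fintype ι] [DecidableEq ι]

lemma rank_trace {P : Matrix ι ι ℂ} (h : P * P = P) : (P.rank : ℂ) = P.trace := by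
  have h1 : IsIdempotentElem (Matrix.toLin' P) := by
    change Matrix.toLin' P ∘ₗ Matrix.toLin' P = Matrix.toLin' P
    rw [← Matrix.toLin'_mul, h]
  have h2 := (LinearMap.IsIdempotentElem.isProj_range _ h1).trace
  rw [Matrix.trace_toLin'_eq] at h2
  rw [h2, Matrix.rank]
  rfl

lemma rank_map {P : Matrix ι ι ℂ} (h : P * P = P) (σ : ℂ ≃+* ℂ) : (P.map σ).rank = P.rank := by
  have h1 : P.map σ * P.map σ = P.map σ := by rw [← map_mul', h]
  have h2 : (P.map σ).trace = σ P.trace := by
    rw [Matrix.trace, Matrix.trace, map_sum]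
    rfl
  have h3 : ((P.map σ).rank : ℂ) = (P.rank : ℂ) := by
    rw [rank_trace h1, h2, ← rank_trace h, map_natCast]
  exact_mod_cast h3

/-- **The decomposition, with ranks.** -/
theorem KD0.blocks' {H : HData ι} {τ : ι → Prop} {e : ι → ℂ} (D₀ : KD0 H τ e) [DecidablePred τ] :
    ∃ (C : Type) (_ : Fintype C) (_ : DecidableEq C) (P : C → Matrix ι ι ℂ) (bar : C → C)
      (s : ℕ), Blocks H τ C P bar ∧ (∀ c, (P c).rank = s) ∧
      Fintype.card C * s = Fintype.card {j // τ j} ∧
      ((∀ c, bar c ≠ c) ∨ (∀ c, bar c = c) ∧ 2 ≤ s) := by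
  classical
  obtain ⟨f, Df⟩ := D₀.kdf
  obtain ⟨p, D⟩ := Df.kdp
  have := D.finite.fintype
  have hrk : ∀ c : KDp.conjs p, (c : Matrix ι ι ℂ).rank = p.rank := by
    rintro ⟨c, σ, rfl⟩
    exact rank_map D.sq σ
  refine ⟨KDp.conjs p, this, inferInstance, fun c => c, fun c => ⟨adj H c, D.adj_conjs c.2⟩,
    p.rank, ?_, hrk, ?_, ?_⟩
  · exact
      { sym := D₀.sym
        idem := fun c => D.csq c.2
        orth := fun c c' h => D.corth c.2 c'.2 (fun h' => h (Subtype.ext h'))
        sum := fun v hv => by rw [D.sum_eq, oneT_U hv]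
        stab := fun c v => (D.cIsE c.2).img v
        alg := fun c i hi => (D.cIsE c.2).alg hi
        adj := fun c => adj_form _
        bar_bar := fun c => Subtype.ext (adj_adj D₀ _)
        comm := fun c => comm_span fun g hg => comm_GG (D.cIsE c.2).comm hg
        lie := fun c u v hu hv => by
          obtain ⟨c, σ, rfl⟩ := c
          have h1 : Wm H (mv σ.symm u) (mv σ.symm v) ∈ ho H := by
            refine D.lie0 ?_ ?_
            · have h2 := congrArg (mv σ.symm) hu
              simp only [mv_mulVec, map_symm'] at h2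
              exact h2
            · have h2 := congrArg (mv σ.symm) hv
              simp only [mv_mulVec, adj_map, map_symm'] at h2
              exact h2
          have h3 := ho_map σ h1
          rwa [Wm_map, mv_symm, mv_symm] at h3 }
  · have h1 := congrArg Matrix.trace D.sum_eq
    rw [Matrix.trace_sum] at h1
    have h2 : ∀ c : KDp.conjs p, (c : Matrix ι ι ℂ).trace = (p.rank : ℂ) := fun c => by
      rw [← rank_trace (D.csq c.2), hrk]
    rw [Finset.sum_congr rfl fun c _ => h2 c, Finset.sum_const, Finset.card_univ,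
      nsmul_eq_mul] at h1
    have h3 : (oneT τ : Matrix ι ι ℂ).trace = (Fintype.card {j // τ j} : ℂ) := by
      rw [oneT, Matrix.trace_diagonal, Finset.sum_boole, Fintype.card_subtype]
    rw [h3] at h1
    exact_mod_cast h1
  · by_cases hp : adj H p = p
    · right
      refine ⟨?_, ?_⟩
      · rintro ⟨c, σ, rfl⟩
        apply Subtype.ext
        change adj H (p.map σ) = p.map σ
        rw [adj_map, hp]
      · by_contra hcon
        have h1 : Module.finrank ℂ (LinearMap.range p.mulVecLin) ≤ 1 := by
          change ¬ (2 ≤ Module.finrank ℂ (LinearMap.range p.mulVecLin)) at hcon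
          omega
        have he : e ∈ LinearMap.range p.mulVecLin := ⟨e, D.pe⟩
        have hf : f ∈ LinearMap.range p.mulVecLin := ⟨f, by
          have h2 := D.pf
          rw [hp] at h2
          exact h2⟩
        obtain ⟨v, hv⟩ := finrank_le_one_iff.1 h1
        obtain ⟨a, ha⟩ := hv ⟨e, he⟩
        obtain ⟨b, hb⟩ := hv ⟨f, hf⟩
        have ha' : e = a • (v : ι → ℂ) := (congrArg Subtype.val ha).symm
        have hb' : f = b • (v : ι → ℂ) := (congrArg Subtype.val hb).symm
        have h3 := D.ee
        have h4 := D.hef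
        rw [hb'] at h4
        rw [ha'] at h3 h4
        rw [map_smul, map_smul, LinearMap.smul_apply, smul_eq_mul, smul_eq_mul] at h3 h4
        have h6 : a ≠ 0 := by
          intro h0
          rw [h0, zero_mul, mul_zero] at h4
          exact zero_ne_one h4
        have h7 : B H (v : ι → ℂ) v = 0 := by
          rcases mul_eq_zero.1 h3 with h | h
          · exact absurd h h6
          · rcases mul_eq_zero.1 h with h | h
            · exact absurd h h6
            · exact h
        rw [h7, mul_zero, mul_zero] at h4
        exact zero_ne_one h4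
    · left
      rintro ⟨c, σ, rfl⟩ h
      have h1 : adj H (p.map σ) = p.map σ := congrArg Subtype.val h
      rw [adj_map] at h1
      apply hp
      have h2 := congrArg (fun m : Matrix ι ι ℂ => m.map σ.symm) h1
      simp only [map_symm'] at h2
      exact h2

end Pool.Agent.V5helper90.ZL
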