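import Pool.Agent.V5helper90.ZL.Base
import Pool.Agent.V5helper89.KZ.Group2

/-!
# The commutant of the Lie algebra on the transcendental part
-/

set_option autoImplicit false
set_option linter.unusedSectionVars false

namespace Pool.Agent.V5helper90.ZL

open Matrix Pool.Agent.N996.BP Pool.Agent.N996.FP ComplexConjugate
open Pool.Agent.V5helper89.KZ
open Pool.Agent.V5helper89.KZ.KD (B B_apply QQ QQ' U mem_U B_single exists_proj L mem_L Wm Wm_mulVec)

variable {ι : Type} [Fintype ι] [DecidableEq ι] {H : HData ι} {τ : ι → Prop} {e f : ι → ℂ}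

/-! The next two lemmas are copied from `Pool/Agent/N996/FP/Sa.lean`. -/

lemma dk_map {κ : Type} [Fintype κ] [DecidableEq κ] (σ : ℂ ≃+* ℂ) (z : Matrix ι ι ℂ) :
    dk κ (z.map σ) = (dk κ z).map σ := by
  ext i j
  rw [dk, dk, Matrix.sum_apply, Matrix.map_apply, Matrix.sum_apply, map_sum]
  refine Finset.sum_congr rfl fun k _ => ?_
  rw [slot_apply, slot_apply, map_mul, map_prod, Matrix.map_apply]
  congr 1
  refine Finset.prod_congr rfl fun m _ => ?_
  rw [Matrix.one_apply]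
  split_ifs <;> simp

/-- The Lie algebra is stable under the automorphisms of the field. -/
lemma ho_map (σ : ℂ ≃+* ℂ) {z : Matrix ι ι ℂ} (hz : z ∈ ho H) : z.map σ ∈ ho H := by
  intro κ _ _ a ha
  rw [dk_map]
  funext i
  have h2 := congrArg σ (congrFun (hz κ a ha) i)
  rw [Matrix.mulVec, dotProduct, map_sum] at h2
  rw [Matrix.mulVec, dotProduct]
  simp only [map_mul, ca, map_ratCast, Matrix.map_apply, Pi.zero_apply, map_zero] at h2 ⊢
  exact h2

/-- The adjoint with respect to the form. -/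
noncomputable def adj (H : HData ι) (p : Matrix ι ι ℂ) : Matrix ι ι ℂ :=
  cQ H.Qir * pᵀ * cQ H.Qr

lemma adj_form (p : Matrix ι ι ℂ) : pᵀ * cQ H.Qr = cQ H.Qr * adj H p := by
  rw [adj, ← Matrix.mul_assoc, ← Matrix.mul_assoc, QQ, Matrix.one_mul]

lemma B_adj (p : Matrix ι ι ℂ) (u v : ι → ℂ) : B H (p *ᵥ u) v = B H u (adj H p *ᵥ v) := by
  rw [B_apply, B_apply, Matrix.mulVec_mulVec, ← adj_form, ← Matrix.mulVec_mulVec,
    Matrix.dotProduct_mulVec u, ← Matrix.mulVec_transpose, Matrix.transpose_transpose]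

lemma adj_mul (p q : Matrix ι ι ℂ) : adj H (p * q) = adj H q * adj H p := by
  rw [adj, adj, adj, Matrix.transpose_mul]
  calc cQ H.Qir * (qᵀ * pᵀ) * cQ H.Qr = cQ H.Qir * qᵀ * (1 * pᵀ) * cQ H.Qr := by
        rw [Matrix.one_mul]; simp only [Matrix.mul_assoc]
    _ = cQ H.Qir * qᵀ * ((cQ H.Qr * cQ H.Qir) * pᵀ) * cQ H.Qr := by rw [QQ]
    _ = _ := by simp only [Matrix.mul_assoc]

lemma adj_smul (c : ℂ) (p : Matrix ι ι ℂ) : adj H (c • p) = c • adj H p := by
  rw [adj, adj, Matrix.transpose_smul, Matrix.mul_smul, Matrix.smul_mul]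

lemma adj_map (σ : ℂ ≃+* ℂ) (p : Matrix ι ι ℂ) : adj H (p.map σ) = (adj H p).map σ := by
  rw [adj, adj, map_mul', map_mul', cQ_map, cQ_map, Matrix.transpose_map]

lemma cQr_tr (D : KD0 H τ e) : (cQ H.Qr)ᵀ = cQ H.Qr := D.cQ_tr

lemma cQir_tr (D : KD0 H τ e) : (cQ H.Qir)ᵀ = cQ H.Qir := by
  have h1 : (cQ H.Qir)ᵀ * cQ H.Qr = 1 := by
    have h2 := congrArg Matrix.transpose (QQ (H := H))
    rw [Matrix.transpose_mul, D.cQ_tr, Matrix.transpose_one] at h2
    exact h2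
  calc (cQ H.Qir)ᵀ = (cQ H.Qir)ᵀ * (cQ H.Qr * cQ H.Qir) := by rw [QQ, Matrix.mul_one]
    _ = cQ H.Qir := by rw [← Matrix.mul_assoc, h1, Matrix.one_mul]

lemma adj_adj (D : KD0 H τ e) (p : Matrix ι ι ℂ) : adj H (adj H p) = p := by
  rw [adj, adj, Matrix.transpose_mul, Matrix.transpose_mul, Matrix.transpose_transpose,
    cQir_tr D, cQr_tr D]
  calc cQ H.Qir * (cQ H.Qr * (p * cQ H.Qir)) * cQ H.Qr =
        (cQ H.Qir * cQ H.Qr) * p * (cQ H.Qir * cQ H.Qr) := by simp only [Matrix.mul_assoc]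
    _ = p := by rw [QQ', Matrix.one_mul, Matrix.mul_one]

/-! ### The action of the automorphisms of the field of complex numbers -/

/-- The conjugate vector. -/
def mv (σ : ℂ ≃+* ℂ) (v : ι → ℂ) : ι → ℂ := fun i => σ (v i)

lemma mv_symm (σ : ℂ ≃+* ℂ) (v : ι → ℂ) : mv σ (mv σ.symm v) = v := by
  funext i
  exact σ.apply_symm_apply _

lemma mv_symm' (σ : ℂ ≃+* ℂ) (v : ι → ℂ) : mv σ.symm (mv σ v) = v := by
  funext i
  exact σ.symm_apply_apply _

lemma map_symm (σ : ℂ ≃+* ℂ) (p : Matrix ι ι ℂ) : (p.map σ.symm).map σ = p := by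
  ext i j
  exact σ.apply_symm_apply _

lemma map_symm' (σ : ℂ ≃+* ℂ) (p : Matrix ι ι ℂ) : (p.map σ).map σ.symm = p := by
  ext i j
  exact σ.symm_apply_apply _

lemma mv_mulVec (σ : ℂ ≃+* ℂ) (p : Matrix ι ι ℂ) (v : ι → ℂ) :
    mv σ (p *ᵥ v) = p.map σ *ᵥ mv σ v := by
  funext i
  change σ (∑ j, p i j * v j) = ∑ j, σ (p i j) * σ (v j)
  rw [map_sum]
  exact Finset.sum_congr rfl fun j _ => map_mul σ _ _

lemma B_mv (σ : ℂ ≃+* ℂ) (u v : ι → ℂ) : B H (mv σ u) (mv σ v) = σ (B H u v) := by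
  rw [B_apply, B_apply]
  have h1 : cQ H.Qr *ᵥ mv σ v = mv σ (cQ H.Qr *ᵥ v) := by rw [mv_mulVec, cQ_map]
  rw [h1]
  change ∑ i, σ (u i) * σ ((cQ H.Qr *ᵥ v) i) = σ (∑ i, u i * (cQ H.Qr *ᵥ v) i)
  rw [map_sum]
  exact Finset.sum_congr rfl fun j _ => (map_mul σ _ _).symm

lemma mv_add (σ : ℂ ≃+* ℂ) (u v : ι → ℂ) : mv σ (u + v) = mv σ u + mv σ v := by
  funext i
  exact map_add σ _ _

lemma mv_sub (σ : ℂ ≃+* ℂ) (u v : ι → ℂ) : mv σ (u - v) = mv σ u - mv σ v := by
  funext i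
  exact map_sub σ _ _

lemma mv_smul (σ : ℂ ≃+* ℂ) (c : ℂ) (u : ι → ℂ) : mv σ (c • u) = σ c • mv σ u := by
  funext i
  exact map_mul σ _ _

lemma mv_zero (σ : ℂ ≃+* ℂ) : mv σ (0 : ι → ℂ) = 0 := by
  funext i
  exact map_zero σ

lemma mv_U (σ : ℂ ≃+* ℂ) {v : ι → ℂ} (hv : v ∈ U τ) : mv σ v ∈ U τ := by
  intro i hi
  change σ (v i) = 0
  rw [hv i hi, map_zero]

lemma Wm_map (σ : ℂ ≃+* ℂ) (u v : ι → ℂ) : (Wm H u v).map σ = Wm H (mv σ u) (mv σ v) := by
  apply Matrix.toLin'.injective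
  apply LinearMap.ext
  intro w
  rw [Matrix.toLin'_apply, Matrix.toLin'_apply, Wm_mulVec]
  have h1 : (Wm H u v).map σ *ᵥ w = mv σ (Wm H u v *ᵥ mv σ.symm w) := by
    rw [mv_mulVec, mv_symm]
  rw [h1, Wm_mulVec, mv_sub, mv_smul, mv_smul, ← B_mv, ← B_mv, mv_symm]

/-! ### The commutant -/

/-- The operators on `T ⊗ ℂ` which commute with the Lie algebra. -/
structure IsE (H : HData ι) (τ : ι → Prop) (p : Matrix ι ι ℂ) : Prop where
  comm : ∀ z ∈ ho H, p * z = z * p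
  row : ∀ i, ¬ τ i → ∀ j, p i j = 0
  col : ∀ j, ¬ τ j → ∀ i, p i j = 0

namespace IsE

variable {p q : Matrix ι ι ℂ}

lemma img (hp : IsE H τ p) (v : ι → ℂ) : p *ᵥ v ∈ U τ := by
  intro i hi
  rw [Matrix.mulVec, dotProduct]
  exact Finset.sum_eq_zero fun j _ => by rw [hp.row i hi, zero_mul]

lemma alg (hp : IsE H τ p) {i : ι} (hi : ¬ τ i) : p *ᵥ Pi.single i 1 = 0 := by
  rw [Matrix.mulVec_single_one]
  funext j
  exact hp.col i hi j

lemma mul (hp : IsE H τ p) (hq : IsE H τ q) : IsE H τ (p * q) where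
  comm z hz := by
    rw [Matrix.mul_assoc, hq.comm z hz, ← Matrix.mul_assoc, hp.comm z hz, Matrix.mul_assoc]
  row i hi j := by
    rw [Matrix.mul_apply]
    exact Finset.sum_eq_zero fun k _ => by rw [hp.row i hi, zero_mul]
  col j hj i := by
    rw [Matrix.mul_apply]
    exact Finset.sum_eq_zero fun k _ => by rw [hq.col j hj, mul_zero]

lemma sub (hp : IsE H τ p) (hq : IsE H τ q) : IsE H τ (p - q) where
  comm z hz := by rw [Matrix.sub_mul, Matrix.mul_sub, hp.comm z hz, hq.comm z hz]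
  row i hi j := by rw [Matrix.sub_apply, hp.row i hi, hq.row i hi, sub_zero]
  col j hj i := by rw [Matrix.sub_apply, hp.col j hj, hq.col j hj, sub_zero]

lemma add (hp : IsE H τ p) (hq : IsE H τ q) : IsE H τ (p + q) where
  comm z hz := by rw [Matrix.add_mul, Matrix.mul_add, hp.comm z hz, hq.comm z hz]
  row i hi j := by rw [Matrix.add_apply, hp.row i hi, hq.row i hi, add_zero]
  col j hj i := by rw [Matrix.add_apply, hp.col j hj, hq.col j hj, add_zero]

lemma smul (hp : IsE H τ p) (c : ℂ) : IsE H τ (c • p) where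
  comm z hz := by rw [Matrix.smul_mul, Matrix.mul_smul, hp.comm z hz]
  row i hi j := by rw [Matrix.smul_apply, hp.row i hi, smul_zero]
  col j hj i := by rw [Matrix.smul_apply, hp.col j hj, smul_zero]

lemma zero : IsE H τ (0 : Matrix ι ι ℂ) where
  comm z _ := by rw [Matrix.zero_mul, Matrix.mul_zero]
  row _ _ _ := rfl
  col _ _ _ := rfl

lemma sum {κ : Type} (s : Finset κ) {p : κ → Matrix ι ι ℂ} (hp : ∀ i ∈ s, IsE H τ (p i)) :
    IsE H τ (∑ i ∈ s, p i) := by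
  classical
  induction s using Finset.induction_on with
  | empty => rw [Finset.sum_empty]; exact zero
  | insert a s ha ih =>
    rw [Finset.sum_insert ha]
    exact (hp a (Finset.mem_insert_self _ _)).add
      (ih fun i hi => hp i (Finset.mem_insert_of_mem hi))

lemma map (hp : IsE H τ p) (σ : ℂ ≃+* ℂ) : IsE H τ (p.map σ) where
  comm z hz := by
    have h1 := congrArg (fun m : Matrix ι ι ℂ => m.map σ) (hp.comm _ (ho_map σ.symm hz))
    simp only [map_mul', map_symm] at h1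
    exact h1
  row i hi j := by rw [Matrix.map_apply, hp.row i hi, map_zero]
  col j hj i := by rw [Matrix.map_apply, hp.col j hj, map_zero]

lemma eq_of (hp : IsE H τ p) (hq : IsE H τ q) (h : ∀ v ∈ U τ, p *ᵥ v = q *ᵥ v) : p = q := by
  ext i j
  by_cases hj : τ j
  · have h1 := congrFun (h (Pi.single j 1) (KD.single_U hj)) i
    rwa [Matrix.mulVec_single_one, Matrix.mulVec_single_one, Matrix.col_apply,
      Matrix.col_apply] at h1
  · rw [hp.col j hj, hq.col j hj]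

lemma adj (D : KD0 H τ e) (hp : IsE H τ p) : IsE H τ (adj H p) where
  comm z hz := by
    have h1 := ho_skew hz
    have e1 : cQ H.Qir * zᵀ = -(z * cQ H.Qir) := by
      rw [eq_neg_iff_add_eq_zero, add_comm]; exact h1
    have e2 : cQ H.Qr * z = -(zᵀ * cQ H.Qr) := by
      have h2 : cQ H.Qr * (z * cQ H.Qir + cQ H.Qir * zᵀ) * cQ H.Qr = 0 := by
        rw [h1, Matrix.mul_zero, Matrix.zero_mul]
      rw [Matrix.mul_add, Matrix.add_mul] at h2
      have e3 : cQ H.Qr * (z * cQ H.Qir) * cQ H.Qr = cQ H.Qr * z := by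
        rw [← Matrix.mul_assoc, Matrix.mul_assoc, QQ', Matrix.mul_one]
      have e4 : cQ H.Qr * (cQ H.Qir * zᵀ) * cQ H.Qr = zᵀ * cQ H.Qr := by
        rw [← Matrix.mul_assoc, QQ, Matrix.one_mul]
      rw [e3, e4] at h2
      rw [eq_neg_iff_add_eq_zero]
      exact h2
    calc cQ H.Qir * pᵀ * cQ H.Qr * z = cQ H.Qir * pᵀ * (cQ H.Qr * z) := by
          rw [Matrix.mul_assoc]
      _ = -(cQ H.Qir * (z * p)ᵀ * cQ H.Qr) := by
          rw [e2, Matrix.transpose_mul, Matrix.mul_neg]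
          simp only [Matrix.mul_assoc]
      _ = -(cQ H.Qir * zᵀ * pᵀ * cQ H.Qr) := by
          rw [← hp.comm z hz, Matrix.transpose_mul]
          simp only [Matrix.mul_assoc]
      _ = z * (cQ H.Qir * pᵀ * cQ H.Qr) := by
          rw [e1]
          simp only [Matrix.neg_mul, neg_neg, Matrix.mul_assoc]
  row i hi j := by
    have h1 : ZL.adj H p *ᵥ Pi.single j 1 ∈ U τ := by
      refine D.mem_U_of fun i hi => ?_
      rw [← B_adj, hp.alg hi, map_zero, LinearMap.zero_apply]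
    have h2 := h1 i hi
    rwa [Matrix.mulVec_single_one, Matrix.col_apply] at h2
  col j hj i := by
    have h1 : ZL.adj H p *ᵥ Pi.single j 1 = 0 := by
      apply D.B_nondeg
      intro u
      rw [← B_adj, D.B_symm]
      exact D.B_U (hp.img u) hj
    have h2 := congrFun h1 i
    rwa [Matrix.mulVec_single_one, Matrix.col_apply] at h2

end IsE

/-- The projector onto `T ⊗ ℂ`. -/
noncomputable def oneT (τ : ι → Prop) [DecidablePred τ] : Matrix ι ι ℂ :=
  Matrix.diagonal fun i => if τ i then (1 : ℂ) else 0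

section

variable [DecidablePred τ]

lemma oneT_mulVec (v : ι → ℂ) : oneT τ *ᵥ v = fun i => if τ i then v i else 0 := by
  funext i
  rw [oneT, Matrix.mulVec_diagonal]
  split_ifs
  · rw [one_mul]
  · rw [zero_mul]

lemma oneT_U {v : ι → ℂ} (hv : v ∈ U τ) : oneT τ *ᵥ v = v := by
  rw [oneT_mulVec]
  funext i
  by_cases hi : τ i
  · rw [if_pos hi]
  · rw [if_neg hi, hv i hi]

lemma oneT_mem (v : ι → ℂ) : oneT τ *ᵥ v ∈ U τ := by
  intro i hi
  rw [oneT_mulVec]
  exact if_neg hi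

lemma oneT_map (σ : ℂ ≃+* ℂ) : (oneT τ).map σ = oneT τ := by
  ext i j
  rw [Matrix.map_apply, oneT, Matrix.diagonal_apply]
  split_ifs <;> simp

/-- The Lie algebra acts on `T ⊗ ℂ`. -/
lemma ho_oneT (D : KD0 H τ e) {z : Matrix ι ι ℂ} (hz : z ∈ ho H) :
    z * oneT τ = z ∧ oneT τ * z = z := by
  constructor
  · ext i j
    rw [oneT, Matrix.mul_diagonal]
    by_cases hj : τ j
    · rw [if_pos hj, mul_one]
    · have h1 := congrFun (D.ho_single hz hj) i
      rw [Matrix.mulVec_single_one, Matrix.col_apply] at h1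
      rw [if_neg hj, mul_zero, h1]
      rfl
  · ext i j
    rw [oneT, Matrix.diagonal_mul]
    by_cases hi : τ i
    · rw [if_pos hi, one_mul]
    · have h1 := D.ho_stab hz (Pi.single j 1) i hi
      rw [Matrix.mulVec_single_one, Matrix.col_apply] at h1
      rw [if_neg hi, zero_mul, h1]

lemma isE_oneT (D : KD0 H τ e) : IsE H τ (oneT τ) where
  comm z hz := by rw [(ho_oneT D hz).1, (ho_oneT D hz).2]
  row i hi j := by
    rw [oneT, Matrix.diagonal_apply]
    split_ifs <;> simp_all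
  col j hj i := by
    rw [oneT, Matrix.diagonal_apply]
    split_ifs <;> simp_all

/-- Projectors onto stable subspaces of `T ⊗ ℂ`. -/
lemma exists_isE (D : KD0 H τ e) (M : Submodule ℂ (ι → ℂ)) (hMU : M ≤ U τ)
    (hM : ∀ z ∈ ho H, ∀ v ∈ M, z *ᵥ v ∈ M) :
    ∃ p, IsE H τ p ∧ (∀ v, p *ᵥ v ∈ M) ∧ ∀ v ∈ M, p *ᵥ v = v := by
  obtain ⟨P, h1, h2, h3⟩ := exists_proj H M hM
  have e1 : ∀ v, (P * oneT τ) *ᵥ v = P *ᵥ (oneT τ *ᵥ v) := fun v => by
    rw [Matrix.mulVec_mulVec]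
  refine ⟨P * oneT τ, ⟨fun z hz => ?_, fun i hi j => ?_, fun j hj i => ?_⟩, fun v => ?_,
    fun v hv => ?_⟩
  · calc P * oneT τ * z = P * (z * oneT τ) := by
          rw [Matrix.mul_assoc, (ho_oneT D hz).2, (ho_oneT D hz).1]
      _ = z * (P * oneT τ) := by
          rw [← Matrix.mul_assoc, h3 z hz, Matrix.mul_assoc]
  · have h4 := hMU (h1 (oneT τ *ᵥ Pi.single j 1)) i hi
    rw [← e1, Matrix.mulVec_single_one, Matrix.col_apply] at h4
    exact h4
  · rw [oneT, Matrix.mul_diagonal, if_neg hj, mul_zero]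
  · rw [e1]
    exact h1 _
  · rw [e1, oneT_U (hMU hv)]
    exact h2 v hv

end

end Pool.Agent.V5helper90.ZL
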