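import Pool.Agent.V5helper90.ZL.Comm

/-!
# The transcendental part is generated by the conjugates of the period
-/

set_option autoImplicit false
set_option linter.unusedSectionVars false

namespace Pool.Agent.V5helper90.ZL

open Matrix Pool.Agent.N996.BP Pool.Agent.N996.FP ComplexConjugate
open Pool.Agent.V5helper89.KZ
open Pool.Agent.V5helper89.KZ.KD (B B_apply QQ QQ' U mem_U B_single exists_proj L mem_L Wm Wm_mulVec)

variable {ι : Type} [Fintype ι] [DecidableEq ι]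

/-- The data together with a generator `f` of the conjugate line. -/
structure KDf (H : HData ι) (τ : ι → Prop) (e f : ι → ℂ) : Prop extends KD0 H τ e where
  hf : H.π (-2) *ᵥ f = f
  hef : B H e f = 1

lemma KD0.kdf {H : HData ι} {τ : ι → Prop} {e : ι → ℂ} (D : KD0 H τ e) : ∃ f, KDf H τ e f := by
  obtain ⟨f, h1, h2⟩ := D.exists_f
  exact ⟨f, { toKD0 := D, hf := h1, hef := h2 }⟩

namespace KDf

variable {H : HData ι} {τ : ι → Prop} {e f : ι → ℂ}

lemma h22 (D : KDf H τ e f) : H.π 2 * H.π (-2) = 0 := by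
  rw [H.hmul 2 D.w2 (-2) D.wm2, if_neg (by norm_num)]

lemma h22' (D : KDf H τ e f) : H.π (-2) * H.π 2 = 0 := by
  rw [H.hmul (-2) D.wm2 2 D.w2, if_neg (by norm_num)]

lemma ee (D : KDf H τ e f) : B H e e = 0 := by
  conv_lhs => rw [← D.fx]
  rw [D.B_π D.w2, D.fx]
  have : H.π (-2) *ᵥ e = 0 := by
    conv_lhs => rw [← D.fx]
    rw [Matrix.mulVec_mulVec, D.h22', Matrix.zero_mulVec]
  rw [this, map_zero]

lemma ff (D : KDf H τ e f) : B H f f = 0 := by
  have h1 : H.π 2 *ᵥ f = 0 := by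
    conv_lhs => rw [← D.hf]
    rw [Matrix.mulVec_mulVec, D.h22, Matrix.zero_mulVec]
  rw [D.π2 D.hf D.hef] at h1
  exact (smul_eq_zero.1 h1).resolve_right D.ne

lemma fe (D : KDf H τ e f) : B H f e = 1 := by rw [D.B_symm]; exact D.hef

lemma eU (D : KDf H τ e f) : e ∈ U τ := by
  refine D.mem_U_of fun i hi => ?_
  rw [D.B_symm]
  conv_lhs => rw [← D.fx]
  rw [D.B_π D.w2, D.π_single D.wm2 (by norm_num) hi, map_zero]

lemma fU (D : KDf H τ e f) : f ∈ U τ := by
  refine D.mem_U_of fun i hi => ?_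
  rw [D.B_symm]
  conv_lhs => rw [← D.hf]
  rw [D.B_π D.wm2, neg_neg, D.π_single D.w2 (by norm_num) hi, map_zero]

lemma fne (D : KDf H τ e f) : f ≠ 0 := by
  intro h
  have := D.hef
  rw [h, map_zero] at this
  exact zero_ne_one this

/-- The element of rank two of the Lie algebra. -/
lemma mem_L (D : KDf H τ e f) : wdg (B H) f e ∈ L H := by
  refine KD.mem_L.2 ⟨(2 : ℂ)⁻¹ • Ng H (RingEquiv.refl ℂ), Submodule.smul_mem _ _ (Ng_mem _), ?_⟩
  apply LinearMap.ext
  intro v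
  have h1 : Ng H (RingEquiv.refl ℂ) = (2 : ℂ) • H.π 2 + (-2 : ℂ) • H.π (-2) := by
    have h3 : ∀ k, (H.π k).map (RingEquiv.refl ℂ) = H.π k := fun k => by
      ext i j; rfl
    rw [Ng]
    simp only [h3]
    rw [wr, Finset.sum_eq_add_of_mem (2 : ℤ) (-2 : ℤ) D.w2 D.wm2 (by norm_num)]
    · push_cast; rfl
    · intro c hc hne
      by_cases h0 : c = 0
      · rw [h0, Int.cast_zero, zero_smul]
      · rw [D.wt c hc hne.1 h0 hne.2, smul_zero]
  rw [Matrix.toLin'_apply, wdg_apply, h1, Matrix.smul_mulVec, Matrix.add_mulVec,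
    Matrix.smul_mulVec, Matrix.smul_mulVec, D.π2 D.hf D.hef, D.πm2 D.hf D.hef]
  module

lemma Wm_fe (D : KDf H τ e f) : Wm H f e ∈ ho H := by
  obtain ⟨z, hz, h⟩ := KD.mem_L.1 D.mem_L
  rw [Wm, ← h, LinearMap.toMatrix'_toLin']
  exact hz

/-- The complex conjugate of the period. -/
lemma conj_e (D : KDf H τ e f) : ∃ c : ℂ, c ≠ 0 ∧ mv (starRingAut : ℂ ≃+* ℂ) e = c • f := by
  have h1 : H.π (-2) *ᵥ mv (starRingAut : ℂ ≃+* ℂ) e = mv (starRingAut : ℂ ≃+* ℂ) e := by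
    have h2 := H.hconj 2 D.w2
    have h3 : (H.π 2).map (starRingAut : ℂ ≃+* ℂ) = H.π (-2) := h2
    rw [← h3, ← mv_mulVec, D.fx]
  have h4 := D.πm2 D.hf D.hef (mv (starRingAut : ℂ ≃+* ℂ) e)
  rw [h1] at h4
  refine ⟨_, ?_, h4⟩
  intro h0
  rw [h0, zero_smul] at h4
  apply D.ne
  have h5 := congrArg (mv (starRingAut : ℂ ≃+* ℂ).symm) h4
  rwa [mv_symm', mv_zero] at h5

/-- Rational vectors of the transcendental part orthogonal to the periods are zero. -/
lemma rat_zero (D : KDf H τ e f) {w : ι → ℂ} (hw : w ∈ U τ) (h1 : B H e w = 0)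
    (h2 : B H f w = 0) (h3 : ∃ u : ι → ℚ, w = fun i => (u i : ℂ)) : w = 0 := by
  obtain ⟨a, rfl⟩ := h3
  have h4 : ∀ t : ℂ, t ≠ 0 → (H.l t *ᵥ fun i => (a i : ℂ)) = fun i => (a i : ℂ) := by
    intro t ht
    have e2 : H.π 2 *ᵥ (fun i => (a i : ℂ)) = 0 := by
      rw [D.π2 D.hf D.hef, h2, zero_smul]
    have em2 : H.π (-2) *ᵥ (fun i => (a i : ℂ)) = 0 := by
      rw [D.πm2 D.hf D.hef, h1, zero_smul]
    have key : ∀ k ∈ Finset.Icc (-H.w : ℤ) H.w, k ≠ 0 → H.π k *ᵥ (fun i => (a i : ℂ)) = 0 := by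
      intro k hk hk0
      by_cases hk2 : k = 2
      · rw [hk2, e2]
      · by_cases hkm : k = -2
        · rw [hkm, em2]
        · rw [D.wt k hk hk2 hk0 hkm, Matrix.zero_mulVec]
    have e1 : ∑ k ∈ Finset.Icc (-H.w : ℤ) H.w, H.π k *ᵥ (fun i => (a i : ℂ)) =
        fun i => (a i : ℂ) := by
      rw [← Matrix.sum_mulVec, H.h1, Matrix.one_mulVec]
    rw [H.l_apply, Matrix.sum_mulVec]
    conv_rhs => rw [← e1]
    refine Finset.sum_congr rfl fun k hk => ?_
    by_cases hk0 : k = 0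
    · rw [hk0, zpow_zero, one_smul]
    · rw [Matrix.smul_mulVec, key k hk hk0, smul_zero]
  have h5 := D.rat a h4
  funext i
  by_cases hi : τ i
  · rw [h5 i hi, Rat.cast_zero]
    rfl
  · exact hw i hi

/-- **Generation.** A subspace which contains the period and is stable under the Lie algebra and
the automorphisms of the field contains the transcendental part. -/
theorem gen (D : KDf H τ e f) (N : Submodule ℂ (ι → ℂ)) (he : e ∈ N)
    (hN : ∀ z ∈ ho H, ∀ v ∈ N, z *ᵥ v ∈ N) (hσ : ∀ σ : ℂ ≃+* ℂ, ∀ v ∈ N, mv σ v ∈ N) :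
    U τ ≤ N := by
  classical
  obtain ⟨N', hN'⟩ : ∃ N', N' = N ⊓ U τ := ⟨_, rfl⟩
  have he' : e ∈ N' := by rw [hN']; exact ⟨he, D.eU⟩
  have hst : ∀ z ∈ ho H, ∀ v ∈ N', z *ᵥ v ∈ N' := by
    rw [hN']
    exact fun z hz v hv => ⟨hN z hz v hv.1, D.ho_stab hz v⟩
  have hσ' : ∀ σ : ℂ ≃+* ℂ, ∀ v ∈ N', mv σ v ∈ N' := by
    rw [hN']
    exact fun σ v hv => ⟨hσ σ v hv.1, mv_U σ hv.2⟩
  have hle : N' ≤ U τ := by rw [hN']; exact inf_le_right
  have hf' : f ∈ N' := by
    obtain ⟨c, hc, h1⟩ := D.conj_e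
    have h2 := hσ' (starRingAut : ℂ ≃+* ℂ) e he'
    rw [h1] at h2
    have h3 := N'.smul_mem c⁻¹ h2
    rwa [smul_smul, inv_mul_cancel₀ hc, one_smul] at h3
  -- the orthogonal complement
  let K : Submodule ℂ (ι → ℂ) :=
    { carrier := {w | w ∈ U τ ∧ ∀ n ∈ N', B H n w = 0}
      add_mem' := fun {a b} ha hb => ⟨(U τ).add_mem ha.1 hb.1, fun n hn => by
        rw [map_add, ha.2 n hn, hb.2 n hn, add_zero]⟩
      zero_mem' := ⟨(U τ).zero_mem, fun n _ => map_zero _⟩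
      smul_mem' := fun c a ha => ⟨(U τ).smul_mem c ha.1, fun n hn => by
        rw [map_smul, ha.2 n hn, smul_zero]⟩ }
  have hK : K = ⊥ := by
    rw [Pool.Agent.W437.HD.span_rational K (fun σ v hv => ⟨mv_U σ hv.1, fun n hn => by
      have h1 : B H n (mv σ v) = σ (B H (mv σ.symm n) v) := by
        rw [← B_mv, mv_symm]
      have h2 : B H n (fun i => σ (v i)) = B H n (mv σ v) := rfl
      rw [h2, h1, hv.2 _ (hσ' σ.symm n hn), map_zero]⟩)]
    rw [Submodule.span_eq_bot]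
    rintro w ⟨hw, hr⟩
    exact D.rat_zero hw.1 (hw.2 e he') (hw.2 f hf') hr
  obtain ⟨p, hp, h1, h2⟩ := exists_isE D.toKD0 N' hle hst
  have h3 : ∀ x ∈ U τ, ZL.adj H p *ᵥ x = x := by
    intro x hx
    have h4 : x - ZL.adj H p *ᵥ x ∈ K := by
      refine ⟨(U τ).sub_mem hx ((hp.adj D.toKD0).img x), fun n hn => ?_⟩
      rw [map_sub, ← B_adj, h2 n hn, sub_self]
    rw [hK, Submodule.mem_bot] at h4
    exact (sub_eq_zero.1 h4).symm
  intro u hu
  have h5 : p *ᵥ u = u := by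
    rw [← sub_eq_zero]
    apply D.B_nondeg
    intro x
    rw [map_sub, sub_eq_zero]
    have h6 : x = oneT τ *ᵥ x + (x - oneT τ *ᵥ x) := by abel
    have h7 : ∀ y ∈ U τ, B H (x - oneT τ *ᵥ x) y = 0 := by
      intro y hy
      rw [D.B_symm]
      have h8 : x - oneT τ *ᵥ x = ∑ i, (x - oneT τ *ᵥ x) i • (Pi.single i 1 : ι → ℂ) := by
        funext k
        rw [Finset.sum_apply, Finset.sum_eq_single k]
        · simp
        · intro i _ hi
          rw [Pi.smul_apply, Pi.single_eq_of_ne (Ne.symm hi), smul_zero]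
        · intro h; exact absurd (Finset.mem_univ _) h
      rw [h8, map_sum]
      refine Finset.sum_eq_zero fun i _ => ?_
      rw [map_smul]
      by_cases hi : τ i
      · have : (x - oneT τ *ᵥ x) i = 0 := by
          rw [Pi.sub_apply, oneT_mulVec]
          change x i - (if τ i then x i else 0) = 0
          rw [if_pos hi, sub_self]
        rw [this, zero_smul]
      · rw [D.B_symm, D.B_U hy hi, smul_zero]
    rw [h6, map_add, LinearMap.add_apply, LinearMap.add_apply, h7 _ (hp.img u), h7 _ hu,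
      add_zero, add_zero, D.B_symm, B_adj, h3 _ (oneT_mem x), D.B_symm]
  have h9 := h1 u
  rw [h5, hN'] at h9
  exact h9.1

end KDf

end Pool.Agent.V5helper90.ZL
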