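import Pool.Agent.V5helper90.ZL.Fam

/-!
# Varieties of K3 type: one codimension on one power
-/

set_option autoImplicit false
set_option linter.unusedSectionVars false

open CategoryTheory AlgebraicGeometry TensorProduct
open scoped Matrix

universe u

namespace Pool.Agent.V5helper90.ZL

open Module
open Pool.Agent.H914 Pool.Agent.H914.VarClass Pool.Agent.H914.VarClass.Obj
  Pool.Agent.H914.WeilCohomology
open Pool.Agent.Y133.Half Pool.Agent.Y121.AH
open Pool.Agent.N996.BP Pool.Agent.N996.BP.Geo Pool.Agent.N996.FP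
open Pool.Agent.V5helper89.KZ

variable {k : Type u} [Field k] {𝒱 : VarClass k} {ops : CycleOps 𝒱}
variable {T : HodgeTheory ops} {X : 𝒱.Obj} {m : ℕ}
variable {ψ : LinearMap.BilinForm T.W.K (T.W.H X)}
variable {ι : Type} [Fintype ι] [DecidableEq ι] {e : Basis ι T.W.K (T.W.H X)} {o : ι}
  {deg : ι → ℕ} {τ : ι → Prop} {H : HData ι}

section

variable (hψ : IsPHS (tauT T) (Fx T X) ψ X.dim) (A : AD T X ψ m e o deg τ H hψ.int)
include A

/-- The coordinate structure (adapted from `AD.kd` of helper89). -/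
theorem kd0 (h : K3 T X m) : ∃ v : ι → ℂ, KD0 H τ v := by
  obtain ⟨ω, h0, h1, h2⟩ := h.one
  refine ⟨crd e ω, {
    sym := A.sym hψ h
    blk := A.blk hψ h
    inv := A.inv hψ
    rat := A.rat hψ h
    two := ?_
    wt := fun k _ => A.wt hψ h k
    ne := ?_
    fx := ?_
    rk := ?_ }⟩
  · rw [A.hw, h.dim]
    have := h.pos
    omega
  · intro h3
    exact h0 (crd_inj e (h3.trans (crd_zero e).symm))
  · rw [A.pi_crd hψ, dG_apply hψ.int _ h1, if_pos (by ring), one_smul]
  · intro v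
    obtain ⟨x, rfl⟩ := crd_surj e v
    obtain ⟨c, hc⟩ := h2 _ (A.two_mem hψ h x)
    refine ⟨c, ?_⟩
    rw [A.pi_crd hψ, hc]
    ext i
    simp [crd]

/-- The parts of given degree of the arrays of Hodge classes. -/
lemma cls_dpart {n : ℕ} (D : ℕ) (a : (Fin (n + 1) → ι) → ℚ) :
    cls e n (dpart deg D a) = H914.proj (T.W.isInternal (pw X n)) D (cls e n a) := by
  rw [cls, cls, map_sum]
  refine Finset.sum_congr rfl fun v _ => ?_
  rw [map_smul, dpart]
  by_cases hv : ∑ i, deg (v i) = D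
  · rw [if_pos hv]
    have h3 := A.wb_deg hψ n v
    rw [hv] at h3
    rw [proj_same _ h3]
  · rw [if_neg hv, proj_ne _ (A.wb_deg hψ n v) hv, smul_zero, Rat.cast_zero, zero_smul]

lemma dpart_hodge {n : ℕ} (d : ℕ) {a : (Fin (n + 1) → ι) → ℚ} (ha : a ∈ BB H (Fin (n + 1))) :
    IsHodge T (pw X n) d (cls e n (dpart deg (2 * d) a)) := by
  rw [cls_dpart hψ A]
  exact ClassPred.sp_proj (Q := hodgePred T) (inv_iff.1 ((inv_cls e A.hl n a).2 ha)) d

/-- All Hodge classes on `X × X` are algebraic if those on `X` and those of middle degree are. -/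
lemma square_le (h : K3 T X m) (S : CSys T.W X) (h0 : (hodgePred T).sp (pw X 0) ≤ S.C 0)
    (h1 : ∀ c : T.W.H (pw X 1), IsHodge T (pw X 1) (2 * m) c → c ∈ S.C 1) :
    (hodgePred T).sp (pw X 1) ≤ S.C 1 := by
  have key : ∀ (j : ℕ) (c : T.W.H (pw X 1)), IsHodge T (pw X 1) j c → c ∈ S.C 1 := by
    intro j c hc
    by_cases hj : j = 2 * m
    · rw [hj] at hc
      exact h1 c hc
    · obtain ⟨a, rfl⟩ := cls_surj e 1 c
      have h1 : a ∈ BB H (Fin (1 + 1)) := (inv_cls e A.hl 1 a).1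
        (inv_iff.2 (ClassPred.sp_of (Q := hodgePred T) hc))
      have h2 := A.span_two hψ (a := a) fun w hw => ?_
      · refine (Submodule.span_le.2 ?_) h2
        rintro z ⟨p, q, a, b, ha, hb, rfl⟩
        exact S.mul (S.map (n := 0) (m := 1) (fst X X) isCd_fst
          (h0 (ClassPred.sp_of (Q := hodgePred T) ha)))
          (S.map (n := 0) (m := 1) (snd X X) isCd_snd
          (h0 (ClassPred.sp_of (Q := hodgePred T) hb)))
      · have h2 := A.supp_deg hψ hc.1 hw
        rw [Fin.sum_univ_two] at h2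
        by_contra hcon
        by_cases h3 : τ (w 0)
        · by_cases h4 : τ (w 1)
          · rw [A.td _ h3, A.td _ h4] at h2
            omega
          · exact hw (A.mixed_two hψ h h1 (Or.inr ⟨h3, h4⟩))
        · by_cases h4 : τ (w 1)
          · exact hw (A.mixed_two hψ h h1 (Or.inl ⟨h3, h4⟩))
          · exact hcon ⟨h3, h4⟩
  intro c hc
  refine ClassPred.sp_ind (Q := hodgePred T) (q := fun c => c ∈ S.C 1) ?_ ?_ ?_ hc
  · intro j x hx
    exact key j x hx
  · exact Submodule.zero_mem _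
  · intro a b ha hb
    exact Submodule.add_mem _ ha hb

end

/-- From a power to the square. -/
lemma to_square (hS : S_SQ.{u}) (hdim : X.dim = 2 * m) (hnt : Nontrivial (T.W.H X)) :
    ∀ (j d : ℕ), 2 * m ≤ d → d + 2 * m ≤ 2 * m * (j + 2) →
      (∀ c : T.W.H (pw X (j + 1)), IsHodge T (pw X (j + 1)) d c →
        c ∈ (algSys T.W).C (pw X (j + 1))) →
      ∀ c : T.W.H (pw X 1), IsHodge T (pw X 1) (2 * m) c → c ∈ (algSys T.W).C (pw X 1) := by
  intro j
  induction j with
  | zero =>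
    intro d h1 h2 h c hc
    have h3 : d = 2 * m := by omega
    subst h3
    exact h c hc
  | succ j ih =>
    intro d h1 h2 h
    obtain ⟨i, hi⟩ : ∃ i, i = min (2 * m) (d - 2 * m) := ⟨_, rfl⟩
    have h3 : d - i + i = d := by omega
    have h4 : 2 * m * (j + 1 + 2) = 2 * m * (j + 2) + 2 * m := by ring
    have h5 : 2 * m ≤ 2 * m * (j + 1) := Nat.le_mul_of_pos_right _ (by omega)
    have h6 : 2 * m * (j + 2) = 2 * m * (j + 1) + 2 * m := by ring
    refine ih (d - i) (by omega) (by omega) ?_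
    refine hS k 𝒱 ops T X (j + 1) (d - i) i hnt (by omega) ?_
    rw [h3]
    exact h

theorem main_AH (hG : S_GRP) (hD : S_DA) (hS : S_SQ.{u})
    (hψ : IsPHS (tauT T) (Fx T X) ψ X.dim) {r : ℕ} (h : K3 T X m)
    (hHC : (hodgePred T).sp X ≤ (algSys T.W).C X)
    (hr : r + finrank T.W.K ((hodgePred T).sp X) = finrank T.W.K (T.W.H X)) {n d : ℕ}
    (hd : m * r ≤ d) (hd' : d + m * r ≤ 2 * m * (n + 1))
    (hnd : ∀ c : T.W.H (pw X n), IsHodge T (pw X n) d c → c ∈ (algSys T.W).C (pw X n)) (n' : ℕ) :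
    (hodgePred T).sp (pw X n') ≤ (algSys T.W).C (pw X n') := by
  classical
  obtain ⟨ι, _, _, e, o, deg, τ, H, A⟩ := exists_AD hψ h
  obtain ⟨v, D⟩ := kd0 hψ A h
  have hcard : r = Fintype.card {j // τ j} := by
    have h1 := A.finrank_sp hψ h
    omega
  have hr2 : 2 ≤ r := by rw [hcard]; exact D.two_le
  have hm := h.pos
  have hm2 : 2 * m ≤ m * r := by rw [mul_comm 2 m]; exact Nat.mul_le_mul_left _ hr2
  have hle : ∀ Z : 𝒱.Obj, (algSys T.W).C Z ≤ (hodgePred T).sp Z := fun Z => ClassPred.alg_le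
  have hn : 1 ≤ n := by
    by_contra hcon
    have h0 : n = 0 := by omega
    subst h0
    omega
  have h1 : ∀ c : T.W.H (pw X 1), IsHodge T (pw X 1) (2 * m) c →
      c ∈ (algSys T.W).C (pw X 1) := by
    obtain ⟨j, rfl⟩ : ∃ j, n = j + 1 := ⟨n - 1, by omega⟩
    refine to_square hS h.dim h.nontriv j d (by omega) ?_ hnd
    have : 2 * m * (j + 1 + 1) = 2 * m * (j + 2) := by ring
    omega
  have hA0 : (hodgePred T).sp (pw X 0) ≤ ((algSys T.W).csys X).C 0 := hHC
  have hA1 : (hodgePred T).sp (pw X 1) ≤ ((algSys T.W).csys X).C 1 :=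
    square_le hψ A h _ hA0 h1
  have hcore := core hG hD D (A.rfam hψ ((algSys T.W).csys X) (fun n => hle _) hA1)
    (A.small hψ hA0 hA1) hm A.td (fun i hi => A.exists_alg hψ h i hi)
    (by rw [← hcard]; exact hd) (by rw [← hcard]; exact hd')
    (fun a ha => hnd _ (dpart_hodge hψ A d ha)) n'
  intro c hc
  obtain ⟨a, rfl⟩ := cls_surj e n' c
  exact hcore ((inv_cls e A.hl n' a).1 (inv_iff.2 hc))

end Pool.Agent.V5helper90.ZL
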