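import Pool.Agent.V5helper90.ZL.Gen

/-!
# The minimal idempotents of the commutant
-/

set_option autoImplicit false
set_option linter.unusedSectionVars false

namespace Pool.Agent.V5helper90.ZL

open Matrix Pool.Agent.N996.BP Pool.Agent.N996.FP ComplexConjugate
open Pool.Agent.V5helper89.KZ
open Pool.Agent.V5helper89.KZ.KD (B B_apply QQ QQ' U mem_U B_single exists_proj L Wm Wm_mulVec)

variable {ι : Type} [Fintype ι] [DecidableEq ι]

/-- The eigenvalue on the period. -/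
noncomputable def lam (H : HData ι) (e f : ι → ℂ) (p : Matrix ι ι ℂ) : ℂ := B H f (p *ᵥ e)

namespace KDf

variable {H : HData ι} {τ : ι → Prop} {e f : ι → ℂ} {p q : Matrix ι ι ℂ}

lemma eig (D : KDf H τ e f) (hp : IsE H τ p) : p *ᵥ e = lam H e f p • e := by
  have h1 : Wm H f e *ᵥ (p *ᵥ e) = p *ᵥ (Wm H f e *ᵥ e) := by
    rw [Matrix.mulVec_mulVec, Matrix.mulVec_mulVec, hp.comm _ D.Wm_fe]
  rw [Wm_mulVec, Wm_mulVec, D.fe, D.ee, one_smul, zero_smul, sub_zero] at h1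
  have h2 : B H e (p *ᵥ e) = 0 := by
    have h3 := congrArg (B H e) h1
    rw [map_sub, map_smul, map_smul, D.ee, D.hef, smul_zero, zero_sub, smul_eq_mul,
      mul_one] at h3
    have h4 : (2 : ℂ) * B H e (p *ᵥ e) = 0 := by linear_combination -h3
    exact (mul_eq_zero.1 h4).resolve_left two_ne_zero
  rw [h2, zero_smul, sub_zero] at h1
  exact h1.symm

lemma eigf (D : KDf H τ e f) (hp : IsE H τ p) : p *ᵥ f = B H e (p *ᵥ f) • f := by
  have h1 : Wm H f e *ᵥ (p *ᵥ f) = p *ᵥ (Wm H f e *ᵥ f) := by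
    rw [Matrix.mulVec_mulVec, Matrix.mulVec_mulVec, hp.comm _ D.Wm_fe]
  rw [Wm_mulVec, Wm_mulVec, D.ff, D.hef, one_smul, zero_smul, zero_sub, Matrix.mulVec_neg] at h1
  have h2 : B H f (p *ᵥ f) = 0 := by
    have h3 := congrArg (B H f) h1
    rw [map_sub, map_smul, map_smul, D.fe, D.ff, smul_zero, sub_zero, map_neg, smul_eq_mul,
      mul_one] at h3
    have h4 : (2 : ℂ) * B H f (p *ᵥ f) = 0 := by linear_combination h3
    exact (mul_eq_zero.1 h4).resolve_left two_ne_zero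
  rw [h2, zero_smul, zero_sub, neg_inj] at h1
  exact h1.symm

lemma lam_mul (D : KDf H τ e f) (hp : IsE H τ p) (hq : IsE H τ q) :
    lam H e f (p * q) = lam H e f p * lam H e f q := by
  rw [lam, ← Matrix.mulVec_mulVec, D.eig hq, Matrix.mulVec_smul, D.eig hp, smul_smul, map_smul,
    D.fe, smul_eq_mul, mul_one, mul_comm]

lemma lam_sub (p q : Matrix ι ι ℂ) : lam H e f (p - q) = lam H e f p - lam H e f q := by
  rw [lam, Matrix.sub_mulVec, map_sub]
  rfl

/-- The commutant is determined by the eigenvalues on the conjugates of the period. -/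
lemma eq_zero_of_lam (D : KDf H τ e f) (hp : IsE H τ p)
    (h : ∀ σ : ℂ ≃+* ℂ, lam H e f (p.map σ) = 0) : p = 0 := by
  let N : Submodule ℂ (ι → ℂ) :=
    { carrier := {v | ∀ σ : ℂ ≃+* ℂ, p.map σ *ᵥ v = 0}
      add_mem' := fun {a b} ha hb σ => by rw [Matrix.mulVec_add, ha σ, hb σ, add_zero]
      zero_mem' := fun σ => Matrix.mulVec_zero _
      smul_mem' := fun c a ha σ => by rw [Matrix.mulVec_smul, ha σ, smul_zero] }
  have h1 : U τ ≤ N := by
    refine D.gen N (fun σ => ?_) (fun z hz v hv σ => ?_) (fun σ v hv ρ => ?_)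
    · rw [D.eig (hp.map σ), h σ, zero_smul]
    · rw [Matrix.mulVec_mulVec, (hp.map σ).comm z hz, ← Matrix.mulVec_mulVec, hv σ,
        Matrix.mulVec_zero]
    · have h2 := hv (ρ.trans σ.symm)
      have h3 : (p.map (ρ.trans σ.symm)).map σ = p.map ρ := by
        ext i j
        exact σ.apply_symm_apply _
      rw [← h3, ← mv_mulVec, h2, mv_zero]
  refine hp.eq_of IsE.zero fun v hv => ?_
  have h2 := h1 hv (RingEquiv.refl ℂ)
  have h3 : p.map (RingEquiv.refl ℂ) = p := by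
    ext i j
    rfl
  rw [h3] at h2
  rw [h2, Matrix.zero_mulVec]

lemma comm' (D : KDf H τ e f) (hp : IsE H τ p) (hq : IsE H τ q) : p * q = q * p := by
  rw [← sub_eq_zero]
  refine D.eq_zero_of_lam ((hp.mul hq).sub (hq.mul hp)) fun σ => ?_
  have h1 : (p * q - q * p).map σ = p.map σ * q.map σ - q.map σ * p.map σ := by
    rw [← map_mul', ← map_mul']
    ext i j
    exact map_sub σ _ _
  rw [h1, lam_sub, D.lam_mul (hp.map σ) (hq.map σ), D.lam_mul (hq.map σ) (hp.map σ), mul_comm,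
    sub_self]

/-- **The minimal idempotent.** Its image is the smallest stable subspace which contains the
period. -/
theorem exists_min (D : KDf H τ e f) : ∃ p, IsE H τ p ∧ p * p = p ∧ p *ᵥ e = e ∧
    (∀ N : Submodule ℂ (ι → ℂ), e ∈ N → (∀ z ∈ ho H, ∀ v ∈ N, z *ᵥ v ∈ N) →
      ∀ v, p *ᵥ v ∈ N) := by
  classical
  let M : Submodule ℂ (ι → ℂ) :=
    sInf {N | e ∈ N ∧ ∀ z ∈ ho H, ∀ v ∈ N, z *ᵥ v ∈ N}
  have he : e ∈ M := by
    rw [Submodule.mem_sInf]
    exact fun N hN => hN.1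
  have hst : ∀ z ∈ ho H, ∀ v ∈ M, z *ᵥ v ∈ M := by
    intro z hz v hv
    rw [Submodule.mem_sInf] at hv ⊢
    exact fun N hN => hN.2 z hz v (hv N hN)
  have hMU : M ≤ U τ := sInf_le ⟨D.eU, fun z hz v _ => D.ho_stab hz v⟩
  obtain ⟨p, hp, h1, h2⟩ := exists_isE D.toKD0 M hMU hst
  refine ⟨p, hp, ?_, h2 e he, fun N hN hN' v => ?_⟩
  · apply Matrix.toLin'.injective
    apply LinearMap.ext
    intro v
    rw [Matrix.toLin'_apply, Matrix.toLin'_apply, ← Matrix.mulVec_mulVec]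
    exact h2 _ (h1 v)
  · exact (Submodule.mem_sInf.1 (h1 v)) N ⟨hN, hN'⟩

end KDf

/-- The data together with the minimal idempotent `p`. -/
structure KDp (H : HData ι) (τ : ι → Prop) (e f : ι → ℂ) (p : Matrix ι ι ℂ) : Prop
    extends KDf H τ e f where
  isE : IsE H τ p
  sq : p * p = p
  pe : p *ᵥ e = e
  mini : ∀ N : Submodule ℂ (ι → ℂ), e ∈ N → (∀ z ∈ ho H, ∀ v ∈ N, z *ᵥ v ∈ N) →
    ∀ v, p *ᵥ v ∈ N

lemma KDf.kdp {H : HData ι} {τ : ι → Prop} {e f : ι → ℂ} (D : KDf H τ e f) :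
    ∃ p, KDp H τ e f p := by
  obtain ⟨p, h1, h2, h3, h4⟩ := D.exists_min
  exact ⟨p, { toKDf := D, isE := h1, sq := h2, pe := h3, mini := h4 }⟩

namespace KDp

variable {H : HData ι} {τ : ι → Prop} {e f : ι → ℂ} {p q : Matrix ι ι ℂ}

lemma lam_p (D : KDp H τ e f p) : lam H e f p = 1 := by rw [lam, D.pe, D.fe]

/-- Elements of the commutant act on the image of `p` by scalars. -/
lemma mul_p (D : KDp H τ e f p) (hq : IsE H τ q) : q * p = lam H e f q • p := by
  let N : Submodule ℂ (ι → ℂ) :=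
    { carrier := {v | q *ᵥ v = lam H e f q • v}
      add_mem' := fun {a b} (ha : _ = _) (hb : _ = _) => by
        change q *ᵥ (a + b) = _
        rw [Matrix.mulVec_add, ha, hb, smul_add]
      zero_mem' := by
        change q *ᵥ 0 = _
        rw [Matrix.mulVec_zero, smul_zero]
      smul_mem' := fun c a (ha : _ = _) => by
        change q *ᵥ (c • a) = _
        rw [Matrix.mulVec_smul, ha, smul_comm] }
  have h1 := D.mini N (D.eig hq) (fun z hz v (hv : _ = _) => by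
    change q *ᵥ (z *ᵥ v) = _
    rw [Matrix.mulVec_mulVec, hq.comm z hz, ← Matrix.mulVec_mulVec, hv, Matrix.mulVec_smul])
  apply Matrix.toLin'.injective
  apply LinearMap.ext
  intro v
  rw [Matrix.toLin'_apply, Matrix.toLin'_apply, ← Matrix.mulVec_mulVec, Matrix.smul_mulVec]
  exact h1 v

lemma p_ne (D : KDp H τ e f p) : p ≠ 0 := by
  intro h
  have h1 := D.pe
  rw [h, Matrix.zero_mulVec] at h1
  exact D.ne h1.symm

/-- The conjugates of the minimal idempotent. -/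
def conjs (p : Matrix ι ι ℂ) : Set (Matrix ι ι ℂ) := {x | ∃ σ : ℂ ≃+* ℂ, x = p.map σ}

lemma conjs_map {x : Matrix ι ι ℂ} (hx : x ∈ conjs p) (σ : ℂ ≃+* ℂ) : x.map σ ∈ conjs p := by
  obtain ⟨ρ, rfl⟩ := hx
  exact ⟨ρ.trans σ, by ext i j; rfl⟩

lemma self_conjs : p ∈ conjs p := ⟨RingEquiv.refl ℂ, by ext i j; rfl⟩

lemma cIsE (D : KDp H τ e f p) {x : Matrix ι ι ℂ} (hx : x ∈ conjs p) : IsE H τ x := by
  obtain ⟨σ, rfl⟩ := hx
  exact D.isE.map σ

lemma csq (D : KDp H τ e f p) {x : Matrix ι ι ℂ} (hx : x ∈ conjs p) : x * x = x := by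
  obtain ⟨σ, rfl⟩ := hx
  rw [← map_mul', D.sq]

lemma cne (D : KDp H τ e f p) {x : Matrix ι ι ℂ} (hx : x ∈ conjs p) : x ≠ 0 := by
  obtain ⟨σ, rfl⟩ := hx
  intro h
  apply D.p_ne
  have h1 := congrArg (fun m : Matrix ι ι ℂ => m.map σ.symm) h
  simp only [map_symm'] at h1
  rw [h1]
  ext i j
  exact map_zero σ.symm

lemma mul_c (D : KDp H τ e f p) (hq : IsE H τ q) {x : Matrix ι ι ℂ} (hx : x ∈ conjs p) :
    ∃ a : ℂ, q * x = a • x := by
  obtain ⟨σ, rfl⟩ := hx
  have h1 := D.mul_p (hq.map σ.symm)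
  have h2 := congrArg (fun m : Matrix ι ι ℂ => m.map σ) h1
  simp only [map_mul', map_symm] at h2
  refine ⟨σ (lam H e f (q.map σ.symm)), ?_⟩
  rw [h2]
  ext i j
  exact map_mul σ _ _

/-- Minimal idempotents of the commutative ring are equal or orthogonal. -/
lemma orth_gen (D : KDp H τ e f p) {x y : Matrix ι ι ℂ} (hx : IsE H τ x) (hy : IsE H τ y)
    (hx2 : x * x = x) (hy2 : y * y = y) (h1 : ∃ a : ℂ, x * y = a • y)
    (h2 : ∃ b : ℂ, y * x = b • x) (hne : x * y ≠ 0) : x = y := by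
  obtain ⟨a, ha⟩ := h1
  obtain ⟨b, hb⟩ := h2
  have h3 : a • y = b • x := by rw [← ha, ← hb, D.comm' hx hy]
  have ha0 : a ≠ 0 := by
    rintro rfl
    rw [zero_smul] at ha
    exact hne ha
  have hb0 : b ≠ 0 := by
    rintro rfl
    rw [zero_smul] at hb
    exact hne (by rw [D.comm' hx hy, hb])
  have h4 : y = (a⁻¹ * b) • x := by
    rw [mul_smul, ← h3, smul_smul, inv_mul_cancel₀ ha0, one_smul]
  have h5 : (a⁻¹ * b) • x = ((a⁻¹ * b) * (a⁻¹ * b)) • x := by
    rw [← h4]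
    conv_lhs => rw [← hy2, h4]
    rw [Matrix.smul_mul, Matrix.mul_smul, hx2, smul_smul]
  have hx0 : x ≠ 0 := by
    rintro rfl
    exact hne (Matrix.zero_mul _)
  have h6 : (a⁻¹ * b - (a⁻¹ * b) * (a⁻¹ * b)) • x = 0 := by
    rw [sub_smul, ← h5, sub_self]
  have h7 := (smul_eq_zero.1 h6).resolve_right hx0
  have h8 : (a⁻¹ * b) * (1 - a⁻¹ * b) = 0 := by linear_combination h7
  have h9 : a⁻¹ * b = 1 := by
    rcases mul_eq_zero.1 h8 with h | h
    · exact absurd h (mul_ne_zero (inv_ne_zero ha0) hb0)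
    · exact (sub_eq_zero.1 h).symm
  rw [h4, h9, one_smul]

lemma corth (D : KDp H τ e f p) {x y : Matrix ι ι ℂ} (hx : x ∈ conjs p) (hy : y ∈ conjs p)
    (h : x ≠ y) : x * y = 0 := by
  by_contra hne
  exact h (D.orth_gen (D.cIsE hx) (D.cIsE hy) (D.csq hx) (D.csq hy) (D.mul_c (D.cIsE hx) hy)
    (D.mul_c (D.cIsE hy) hx) hne)

/-- There are finitely many conjugates. -/
lemma finite (D : KDp H τ e f p) : (conjs p).Finite := by
  have h1 : LinearIndependent ℂ (fun x : conjs p => (x : Matrix ι ι ℂ)) := by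
    rw [linearIndependent_iff']
    intro s g hg i hi
    have h2 := congrArg (fun m => m * (i : Matrix ι ι ℂ)) hg
    simp only [Finset.sum_mul, Matrix.zero_mul] at h2
    rw [Finset.sum_eq_single i] at h2
    · rw [Matrix.smul_mul, D.csq i.2] at h2
      exact (smul_eq_zero.1 h2).resolve_right (D.cne i.2)
    · intro j _ hj
      rw [Matrix.smul_mul, D.corth j.2 i.2 (fun h => hj (Subtype.ext h)), smul_zero]
    · intro h; exact absurd hi h
  exact h1.setFinite

end KDp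

end Pool.Agent.V5helper90.ZL
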