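import Pool.Agent.V5helper90.ZL.Stm

/-!
# Rotations and dilations in the group of a Hodge structure

`rot'` is adapted from `KD.rot` in `Pool/Agent/V5helper89/KZ/Group.lean` (helper89).
-/

set_option autoImplicit false
set_option linter.unusedSectionVars false

namespace Pool.Agent.V5helper90.ZL

open Matrix Pool.Agent.N996.BP Pool.Agent.N996.FP ComplexConjugate
open Pool.Agent.V5helper89.KZ
open Pool.Agent.V5helper89.KZ.KD (B B_apply QQ QQ' U mem_U B_single L mem_L Wm Wm_mulVec)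

variable {ι : Type} [Fintype ι] [DecidableEq ι] {H : HData ι}

lemma bil_eq (u v : ι → ℂ) : bil (cQ H.Qr) u v = B H u v := (B_apply u v).symm

lemma B_symm' (hsym : ∀ i j, H.Qr i j = H.Qr j i) (u v : ι → ℂ) : B H u v = B H v u := by
  have h1 : (cQ H.Qr)ᵀ = cQ H.Qr := by
    ext i j
    rw [Matrix.transpose_apply, cQ, Matrix.map_apply, Matrix.map_apply, hsym]
  rw [B_apply, B_apply, Matrix.dotProduct_mulVec, ← Matrix.mulVec_transpose, h1,
    dotProduct_comm]

/-- The elements of the group are isometries. -/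
lemma So_iso {g : Matrix ι ι ℂ} (hg : g ∈ So H) : gᵀ * cQ H.Qr * g = cQ H.Qr := by
  have hg' := fix_Q H (hg (Unit ⊕ Unit))
  have h1 : g * (cQ H.Qir * gᵀ * cQ H.Qr) = 1 := by
    calc g * (cQ H.Qir * gᵀ * cQ H.Qr) = (g * cQ H.Qir * gᵀ) * cQ H.Qr := by
          simp only [Matrix.mul_assoc]
      _ = 1 := by rw [hg']; exact QQ'
  have h2 : (cQ H.Qir * gᵀ * cQ H.Qr) * g = 1 := mul_eq_one_comm.1 h1
  calc gᵀ * cQ H.Qr * g = (cQ H.Qr * cQ H.Qir) * (gᵀ * cQ H.Qr * g) := by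
        rw [QQ, Matrix.one_mul]
    _ = cQ H.Qr * ((cQ H.Qir * gᵀ * cQ H.Qr) * g) := by simp only [Matrix.mul_assoc]
    _ = _ := by rw [h2, Matrix.mul_one]

lemma So_det_sq {g : Matrix ι ι ℂ} (hg : g ∈ So H) : g.det * g.det = 1 := by
  have h1 := congrArg Matrix.det (So_iso hg)
  rw [Matrix.det_mul, Matrix.det_mul, Matrix.det_transpose] at h1
  have h2 : (cQ H.Qr).det ≠ 0 := by
    intro h0
    have h3 := congrArg Matrix.det (QQ (H := H))
    rw [Matrix.det_mul, h0, zero_mul, Matrix.det_one] at h3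
    exact zero_ne_one h3
  have h3 : (cQ H.Qr).det * (g.det * g.det) = (cQ H.Qr).det * 1 := by
    linear_combination h1
  exact mul_left_cancel₀ h2 h3

lemma rot' (hsym : ∀ i j, H.Qr i j = H.Qr j i) {v v' : ι → ℂ} (hW : Wm H v v' ∈ ho H) {q m : ℂ}
    (h1 : B H v v = q) (h2 : B H v' v' = q) (hm : B H v v' = m) (hq : q ≠ 0)
    (hmq : m ^ 2 ≠ q ^ 2) : ∃ R ∈ So H, R.det = 1 ∧ R *ᵥ v' = v ∧
      ∀ w, B H v w = 0 → B H v' w = 0 → R *ᵥ w = w := by
  obtain ⟨c, hc⟩ : ∃ c, c = m ^ 2 - q ^ 2 := ⟨_, rfl⟩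
  have hc0 : c ≠ 0 := by rw [hc]; exact sub_ne_zero.2 hmq
  obtain ⟨s, hs⟩ : ∃ s : ℂ, s ^ 2 = c := IsAlgClosed.exists_pow_nat_eq c two_pos
  have hs0 : s ≠ 0 := by rintro rfl; exact hc0 (by rw [← hs]; ring)
  have hm' : B H v' v = m := by rw [B_symm' hsym]; exact hm
  obtain ⟨x, hx⟩ : ∃ x, x = Wm H v v' := ⟨_, rfl⟩
  have hxho : x ∈ ho H := by rw [hx]; exact hW
  have xw : ∀ w, x *ᵥ w = B H v w • v' - B H v' w • v := fun w => by rw [hx, Wm_mulVec]
  have xv : x *ᵥ v = q • v' - m • v := by rw [xw, h1, hm']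
  have xv' : x *ᵥ v' = m • v' - q • v := by rw [xw, h2, hm]
  have x3 : x * x * x = c • x := by
    apply Matrix.toLin'.injective
    apply LinearMap.ext
    intro w
    rw [Matrix.toLin'_apply, Matrix.toLin'_apply, ← Matrix.mulVec_mulVec, Matrix.smul_mulVec,
      ← Matrix.mulVec_mulVec, xw w, Matrix.mulVec_sub, Matrix.mulVec_smul, Matrix.mulVec_smul, xv,
      xv', Matrix.mulVec_sub, Matrix.mulVec_smul, Matrix.mulVec_smul, Matrix.mulVec_sub,
      Matrix.mulVec_sub, Matrix.mulVec_smul, Matrix.mulVec_smul, Matrix.mulVec_smul,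
      Matrix.mulVec_smul, xv, xv', hc]
    module
  let π : ℤ → Matrix ι ι ℂ := fun k => if k = 1 then (2 * c)⁻¹ • (x * x + s • x) else
    if k = -1 then (2 * c)⁻¹ • (x * x - s • x) else 1 - c⁻¹ • (x * x)
  have hπ1 : π 1 = (2 * c)⁻¹ • (x * x + s • x) := rfl
  have hπm : π (-1) = (2 * c)⁻¹ • (x * x - s • x) := rfl
  have hπ0 : π 0 = 1 - c⁻¹ • (x * x) := rfl
  have x4 : x * x * (x * x) = c • (x * x) := by
    rw [← Matrix.mul_assoc, x3, Matrix.smul_mul]
  have x3' : x * (x * x) = c • x := by rw [← Matrix.mul_assoc, x3]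
  have sm : ∀ f : ℤ → Matrix ι ι ℂ, ∑ k ∈ ({-1, 0, 1} : Finset ℤ), f k = f (-1) + f 0 + f 1 := by
    intro f
    rw [Finset.sum_insert (by decide), Finset.sum_insert (by decide), Finset.sum_singleton,
      add_assoc]
  have hid : IsIdem {-1, 0, 1} π := by
    constructor
    · rw [sm, hπ1, hπm, hπ0, mul_inv]
      have : (2 : ℂ)⁻¹ + 2⁻¹ = 1 := by norm_num
      have e1 : (2⁻¹ * c⁻¹) • (x * x - s • x) + (1 - c⁻¹ • (x * x)) +
          (2⁻¹ * c⁻¹) • (x * x + s • x) = 1 + (((2 : ℂ)⁻¹ + 2⁻¹ - 1) * c⁻¹) • (x * x) := by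
        module
      rw [e1, this, sub_self, zero_mul, zero_smul, add_zero]
    · have A : ∀ a b a' b' : ℂ, (a • (x * x) + b • x) * (a' • (x * x) + b' • x) =
          (c * (a * a') + b * b') • (x * x) + (c * (a * b' + b * a')) • x := by
        intro a b a' b'
        rw [Matrix.add_mul, Matrix.mul_add, Matrix.mul_add]
        simp only [Matrix.smul_mul, Matrix.mul_smul, x4, x3', x3]
        module
      have e1 : π 1 = (2 * c)⁻¹ • (x * x) + ((2 * c)⁻¹ * s) • x := by rw [hπ1]; module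
      have em : π (-1) = (2 * c)⁻¹ • (x * x) + (-((2 * c)⁻¹ * s)) • x := by rw [hπm]; module
      have e0 : π 0 = 1 - (c⁻¹ • (x * x) + (0 : ℂ) • x) := by rw [hπ0]; module
      have hcs : c * ((2 * c)⁻¹ * (2 * c)⁻¹) + (2 * c)⁻¹ * s * ((2 * c)⁻¹ * s) =
          (2 * c)⁻¹ := by
        field_simp
        rw [hs]; ring
      have hcs' : c * ((2 * c)⁻¹ * (2 * c)⁻¹) - (2 * c)⁻¹ * s * ((2 * c)⁻¹ * s) = 0 := by
        field_simp
        rw [hs]; ring
      have hc1 : c * ((2 * c)⁻¹ * c⁻¹) = (2 * c)⁻¹ := by field_simp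
      have hc2 : c * ((2 * c)⁻¹ * s * c⁻¹) = (2 * c)⁻¹ * s := by field_simp
      have hc3 : c * (c⁻¹ * c⁻¹) = c⁻¹ := by field_simp
      intro k hk l hl
      simp only [Finset.mem_insert, Finset.mem_singleton] at hk hl
      rcases hk with rfl | rfl | rfl <;> rcases hl with rfl | rfl | rfl
      · rw [if_pos rfl, em, A]
        congr 2
        · linear_combination hcs
        · field_simp
          try norm_num
      · rw [if_neg (by norm_num), em, e0, Matrix.mul_sub, Matrix.mul_one, A, sub_eq_zero]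
        congr 2
        · rw [mul_zero, add_zero, hc1]
        · field_simp
          try ring
      · rw [if_neg (by norm_num), em, e1, A]
        have a1 : c * ((2 * c)⁻¹ * (2 * c)⁻¹) + -((2 * c)⁻¹ * s) * ((2 * c)⁻¹ * s) = 0 := by
          linear_combination hcs'
        have a2 : c * ((2 * c)⁻¹ * ((2 * c)⁻¹ * s) + -((2 * c)⁻¹ * s) * (2 * c)⁻¹) = 0 := by ring
        rw [a1, a2, zero_smul, zero_smul, add_zero]
      · rw [if_neg (by norm_num), em, e0, Matrix.sub_mul, Matrix.one_mul, A, sub_eq_zero]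
        congr 2
        · field_simp
          try ring
        · field_simp
          try ring
      · rw [if_pos rfl, e0, Matrix.mul_sub, Matrix.mul_one, Matrix.sub_mul, Matrix.one_mul, A]
        have a1 : c * (c⁻¹ * c⁻¹) + 0 * 0 = c⁻¹ := by linear_combination hc3
        have a2 : c * (c⁻¹ * 0 + 0 * c⁻¹) = 0 := by ring
        rw [a1, a2]
        abel
      · rw [if_neg (by norm_num), e1, e0, Matrix.sub_mul, Matrix.one_mul, A, sub_eq_zero]
        congr 2
        · field_simp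
          try ring
        · field_simp
          try ring
      · rw [if_neg (by norm_num), em, e1, A]
        have a1 : c * ((2 * c)⁻¹ * (2 * c)⁻¹) + (2 * c)⁻¹ * s * -((2 * c)⁻¹ * s) = 0 := by
          linear_combination hcs'
        have a2 : c * ((2 * c)⁻¹ * -((2 * c)⁻¹ * s) + (2 * c)⁻¹ * s * (2 * c)⁻¹) = 0 := by ring
        rw [a1, a2, zero_smul, zero_smul, add_zero]
      · rw [if_neg (by norm_num), e1, e0, Matrix.mul_sub, Matrix.mul_one, A, sub_eq_zero]
        congr 2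
        · field_simp
          try ring
        · field_simp
          try ring
      · rw [if_pos rfl, e1, A, hcs]
        congr 2
        field_simp
        try norm_num
  have hgen : ∑ k ∈ ({-1, 0, 1} : Finset ℤ), (k : ℂ) • π k ∈ ho H := by
    have e1 : ∑ k ∈ ({-1, 0, 1} : Finset ℤ), (k : ℂ) • π k = (c⁻¹ * s) • x := by
      rw [sm, hπ1, hπm, hπ0, mul_inv]
      push_cast
      have : (2 : ℂ)⁻¹ + 2⁻¹ = 1 := by norm_num
      have e2 : (-1 : ℂ) • (2⁻¹ * c⁻¹) • (x * x - s • x) + (0 : ℂ) • (1 - c⁻¹ • (x * x)) +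
          (1 : ℂ) • (2⁻¹ * c⁻¹) • (x * x + s • x) = (((2 : ℂ)⁻¹ + 2⁻¹) * (c⁻¹ * s)) • x := by
        module
      rw [e2, this, one_mul]
    rw [e1]
    exact Submodule.smul_mem _ _ hxho
  obtain ⟨t, ht⟩ : ∃ t, t = (m - s) / q := ⟨_, rfl⟩
  have htt : t * ((m + s) / q) = 1 := by
    rw [ht]
    field_simp
    linear_combination -hs - hc
  have ht0 : t ≠ 0 := left_ne_zero_of_mul_eq_one htt
  have htinv : t⁻¹ = (m + s) / q := inv_eq_of_mul_eq_one_right htt
  obtain ⟨r, hr⟩ : ∃ r : ℂ, r ^ 2 = t := IsAlgClosed.exists_pow_nat_eq t two_pos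
  have hr0 : r ≠ 0 := by rintro rfl; exact ht0 (by rw [← hr]; ring)
  refine ⟨∑ k ∈ ({-1, 0, 1} : Finset ℤ), t ^ k • π k, idem_So hid hgen ht0, ?_, ?_, ?_⟩
  · rw [← hr, sq, ← idem_sq hid, Matrix.det_mul]
    exact So_det_sq (idem_So hid hgen hr0)
  · have e1 : x *ᵥ (x *ᵥ v') = c • v' := by
      rw [xv', Matrix.mulVec_sub, Matrix.mulVec_smul, Matrix.mulVec_smul, xv, xv', hc]
      module
    rw [sm, hπ1, hπm, hπ0, _root_.zpow_neg_one, zpow_zero, zpow_one, one_smul, htinv, ht,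
      Matrix.add_mulVec, Matrix.add_mulVec, Matrix.smul_mulVec, Matrix.smul_mulVec,
      Matrix.smul_mulVec, Matrix.smul_mulVec, Matrix.sub_mulVec, Matrix.sub_mulVec,
      Matrix.add_mulVec, Matrix.smul_mulVec, Matrix.smul_mulVec, Matrix.one_mulVec,
      ← Matrix.mulVec_mulVec, e1, xv']
    funext i
    simp only [Pi.add_apply, Pi.sub_apply, Pi.smul_apply, smul_eq_mul]
    have e2 : (m + s) / q * ((2 * c)⁻¹ * (c * v' i - s * (m * v' i - q * v i))) +
        (v' i - c⁻¹ * (c * v' i)) +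
        (m - s) / q * ((2 * c)⁻¹ * (c * v' i + s * (m * v' i - q * v i))) - v i =
        (s ^ 2 - c) * ((v i - m / q * v' i) / c) := by
      field_simp
      ring
    rw [← sub_eq_zero, e2, hs, sub_self, zero_mul]
  · intro w hw hw'
    have e1 : x *ᵥ w = 0 := by rw [xw, hw, hw', zero_smul, zero_smul, sub_zero]
    rw [sm, hπ1, hπm, hπ0, zpow_zero, one_smul,
      Matrix.add_mulVec, Matrix.add_mulVec, Matrix.smul_mulVec, Matrix.smul_mulVec,
      Matrix.smul_mulVec, Matrix.smul_mulVec, Matrix.sub_mulVec, Matrix.sub_mulVec,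
      Matrix.add_mulVec, Matrix.smul_mulVec, Matrix.smul_mulVec, Matrix.one_mulVec,
      ← Matrix.mulVec_mulVec, e1, Matrix.mulVec_zero]
    simp


theorem t_ROT : S_ROT := by
  intro ι _ _ H hsym v v' hW h12 hq hmq
  simp only [bil_eq] at h12 hq hmq ⊢
  exact rot' hsym hW rfl h12.symm rfl hq hmq

lemma vmv (u a w : ι → ℂ) : vecMulVec u a *ᵥ w = (a ⬝ᵥ w) • u := by
  funext i
  rw [Matrix.mulVec, dotProduct]
  change ∑ j, u i * a j * w j = (a ⬝ᵥ w) * u i
  rw [dotProduct, Finset.sum_mul]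
  exact Finset.sum_congr rfl fun j _ => by ring

lemma Qdot (hsym : ∀ i j, H.Qr i j = H.Qr j i) (v w : ι → ℂ) :
    (cQ H.Qr *ᵥ v) ⬝ᵥ w = B H v w := by
  rw [dotProduct_comm, ← B_apply, B_symm' hsym]

theorem t_DIL : S_DIL := by
  intro ι _ _ H hsym u v hW huu hvv huv t ht
  simp only [bil_eq] at huu hvv huv
  have hvu : B H v u = 1 := by rw [B_symm' hsym]; exact huv
  obtain ⟨a, ha⟩ : ∃ a, a = vecMulVec v (cQ H.Qr *ᵥ u) := ⟨_, rfl⟩
  obtain ⟨b, hb⟩ : ∃ b, b = vecMulVec u (cQ H.Qr *ᵥ v) := ⟨_, rfl⟩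
  have aw : ∀ w, a *ᵥ w = B H u w • v := fun w => by rw [ha, vmv, Qdot hsym]
  have bw : ∀ w, b *ᵥ w = B H v w • u := fun w => by rw [hb, vmv, Qdot hsym]
  have ext' : ∀ x y : Matrix ι ι ℂ, (∀ w, x *ᵥ w = y *ᵥ w) → x = y := by
    intro x y h
    apply Matrix.toLin'.injective
    apply LinearMap.ext
    intro w
    rw [Matrix.toLin'_apply, Matrix.toLin'_apply, h]
  have aa : a * a = a := ext' _ _ fun w => by
    rw [← Matrix.mulVec_mulVec, aw w, Matrix.mulVec_smul, aw v, huv, one_smul]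
  have bb : b * b = b := ext' _ _ fun w => by
    rw [← Matrix.mulVec_mulVec, bw w, Matrix.mulVec_smul, bw u, hvu, one_smul]
  have ab : a * b = 0 := ext' _ _ fun w => by
    rw [← Matrix.mulVec_mulVec, bw w, Matrix.mulVec_smul, aw u, huu, zero_smul, smul_zero,
      Matrix.zero_mulVec]
  have ba : b * a = 0 := ext' _ _ fun w => by
    rw [← Matrix.mulVec_mulVec, aw w, Matrix.mulVec_smul, bw v, hvv, zero_smul, smul_zero,
      Matrix.zero_mulVec]
  let π : ℤ → Matrix ι ι ℂ := fun k => if k = 1 then a else if k = -1 then b else 1 - a - b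
  have hπ1 : π 1 = a := rfl
  have hπm : π (-1) = b := rfl
  have hπ0 : π 0 = 1 - a - b := rfl
  have sm : ∀ f : ℤ → Matrix ι ι ℂ, ∑ k ∈ ({-1, 0, 1} : Finset ℤ), f k = f (-1) + f 0 + f 1 := by
    intro f
    rw [Finset.sum_insert (by decide), Finset.sum_insert (by decide), Finset.sum_singleton,
      add_assoc]
  have hid : IsIdem {-1, 0, 1} π := by
    constructor
    · rw [sm, hπ1, hπm, hπ0]
      abel
    · intro k hk l hl
      simp only [Finset.mem_insert, Finset.mem_singleton] at hk hl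
      rcases hk with rfl | rfl | rfl <;> rcases hl with rfl | rfl | rfl
      · rw [if_pos rfl, hπm, bb]
      · rw [if_neg (by norm_num), hπm, hπ0, Matrix.mul_sub, Matrix.mul_sub, Matrix.mul_one, ba, bb]
        abel
      · rw [if_neg (by norm_num), hπm, hπ1, ba]
      · rw [if_neg (by norm_num), hπm, hπ0, Matrix.sub_mul, Matrix.sub_mul, Matrix.one_mul, ab, bb]
        abel
      · rw [if_pos rfl, hπ0, Matrix.mul_sub, Matrix.mul_sub, Matrix.mul_one, Matrix.sub_mul,
          Matrix.sub_mul, Matrix.one_mul, Matrix.sub_mul, Matrix.sub_mul, Matrix.one_mul, aa, ba,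
          ab, bb]
        abel
      · rw [if_neg (by norm_num), hπ1, hπ0, Matrix.sub_mul, Matrix.sub_mul, Matrix.one_mul, aa, ba]
        abel
      · rw [if_neg (by norm_num), hπ1, hπm, ab]
      · rw [if_neg (by norm_num), hπ1, hπ0, Matrix.mul_sub, Matrix.mul_sub, Matrix.mul_one, aa, ab]
        abel
      · rw [if_pos rfl, hπ1, aa]
  have hgen : ∑ k ∈ ({-1, 0, 1} : Finset ℤ), (k : ℂ) • π k ∈ ho H := by
    have e1 : ∑ k ∈ ({-1, 0, 1} : Finset ℤ), (k : ℂ) • π k = Wm H u v := by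
      rw [sm, hπ1, hπm, hπ0]
      refine ext' _ _ fun w => ?_
      rw [Wm_mulVec, Matrix.add_mulVec, Matrix.add_mulVec, Matrix.smul_mulVec, Matrix.smul_mulVec,
        Matrix.smul_mulVec, aw, bw]
      push_cast
      module
    rw [e1]
    exact hW
  have h1 := idem_So hid hgen ht
  have h2 : ∑ k ∈ ({-1, 0, 1} : Finset ℤ), t ^ k • π k = dil (cQ H.Qr) u v t := by
    rw [sm, hπ1, hπm, hπ0, dil, ← ha, ← hb, _root_.zpow_neg_one, zpow_zero, zpow_one]
    module
  rwa [h2] at h1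

end Pool.Agent.V5helper90.ZL
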